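import Mathlib
import Pool.Agent.TH867.SB.Ref

/-!
Pairs of integers `x`, `x'` with `A x + B k = D x'`, `A`, `B`, `D` small, and small radicals: their
number, from the count of the abc triples of all heights with a light member.
-/

set_option autoImplicit false

namespace Pool.Agent.X61.RT

open Finset Pool.Agent.TH867.SR

/-- the product of the primes dividing `n` -/
def rad (n : ℤ) : ℕ := ∏ p ∈ n.natAbs.primeFactors, p

/-- the sum of the logarithms of the primes dividing `n` -/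
noncomputable def lr (n : ℕ) : ℝ := ∑ q ∈ n.primeFactors, Real.log q

lemma rad_pos (n : ℤ) : 0 < rad n :=
  Finset.prod_pos fun _ hq => (Nat.prime_of_mem_primeFactors hq).pos

lemma one_le_rad (n : ℤ) : (1 : ℝ) ≤ rad n := by exact_mod_cast rad_pos n

lemma lr_eq (n : ℤ) : lr n.natAbs = Real.log (rad n) := by
  unfold lr rad
  rw [log_prod_primes fun _ hq => Nat.prime_of_mem_primeFactors hq]

lemma lr_nonneg (n : ℕ) : 0 ≤ lr n := by
  refine Finset.sum_nonneg fun q hq => Real.log_nonneg ?_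
  exact_mod_cast (Nat.prime_of_mem_primeFactors hq).one_le

lemma lr_mono {m n : ℕ} (hn : n ≠ 0) (h : m ∣ n) : lr m ≤ lr n := by
  refine Finset.sum_le_sum_of_subset_of_nonneg (Nat.primeFactors_mono h hn) ?_
  intro q hq _
  refine Real.log_nonneg ?_
  exact_mod_cast (Nat.prime_of_mem_primeFactors hq).one_le

lemma lr_mul (m n : ℕ) (hm : m ≠ 0) (hn : n ≠ 0) : lr (m * n) ≤ lr m + lr n := by
  unfold lr
  rw [Nat.primeFactors_mul hm hn, ← Finset.sum_union_inter]
  have : 0 ≤ ∑ q ∈ m.primeFactors ∩ n.primeFactors, Real.log (q : ℝ) := by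
    refine Finset.sum_nonneg fun q hq => Real.log_nonneg ?_
    exact_mod_cast (Nat.prime_of_mem_primeFactors (Finset.mem_inter.1 hq).1).one_le
  linarith

lemma lr_le_log {n : ℕ} (hn : n ≠ 0) : lr n ≤ Real.log n := by
  unfold lr
  rw [← log_prod_primes fun _ hq => Nat.prime_of_mem_primeFactors hq]
  refine Real.log_le_log ?_ ?_
  · exact_mod_cast Finset.prod_pos fun q hq => (Nat.prime_of_mem_primeFactors hq).pos
  · exact_mod_cast Nat.le_of_dvd (Nat.pos_of_ne_zero hn) (Nat.prod_primeFactors_dvd n)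

/-- three coprime positive integers one of which is the sum of the others -/
lemma sort_nat {x y z : ℕ} (hx : 0 < x) (hy : 0 < y) (hc : Nat.Coprime x y) (h : x + y = z) :
    ∃ t : Fin 3 → ℕ, Tr t ∧ (∃ i, t i = x) ∧ (∃ i, t i = y) ∧ (∃ i, t i = z) ∧
      rr t 0 + rr t 1 + rr t 2 = lr x + lr y + lr z := by
  rcases le_total x y with hxy | hxy
  · refine ⟨![x, y, z], ⟨hx, hxy, hc, h⟩, ⟨0, rfl⟩, ⟨1, rfl⟩, ⟨2, rfl⟩, rfl⟩
  · refine ⟨![y, x, z], ⟨hy, hxy, hc.symm, by show y + x = z; omega⟩, ⟨1, rfl⟩, ⟨0, rfl⟩,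
      ⟨2, rfl⟩, ?_⟩
    show lr y + lr x + lr z = _
    ring

/-- the sorted triple of `a + b = c` -/
lemma sort_int {a b c : ℤ} (ha : a ≠ 0) (hb : b ≠ 0) (hc : c ≠ 0) (hab : IsCoprime a b)
    (h : a + b = c) :
    ∃ t : Fin 3 → ℕ, Tr t ∧ (∃ i, t i = a.natAbs) ∧ (∃ i, t i = b.natAbs) ∧
      rr t 0 + rr t 1 + rr t 2 = lr a.natAbs + lr b.natAbs + lr c.natAbs := by
  have ha' : 0 < a.natAbs := Int.natAbs_pos.2 ha
  have hb' : 0 < b.natAbs := Int.natAbs_pos.2 hb
  have hc' : 0 < c.natAbs := Int.natAbs_pos.2 hc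
  have hcop : Nat.Coprime a.natAbs b.natAbs := Int.isCoprime_iff_nat_coprime.1 hab
  have hbc : IsCoprime b c := by
    rw [← h]
    have := hab.symm.add_mul_left_right 1
    rwa [mul_one] at this
  have hac : IsCoprime a c := by
    rw [← h]
    have := hab.add_mul_left_right 1
    rwa [mul_one, add_comm] at this
  have hcop2 : Nat.Coprime b.natAbs c.natAbs := Int.isCoprime_iff_nat_coprime.1 hbc
  have hcop3 : Nat.Coprime a.natAbs c.natAbs := Int.isCoprime_iff_nat_coprime.1 hac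
  have hcases : a.natAbs + b.natAbs = c.natAbs ∨ b.natAbs + c.natAbs = a.natAbs ∨
      a.natAbs + c.natAbs = b.natAbs := by omega
  rcases hcases with h1 | h1 | h1
  · obtain ⟨t, h2, h3, h4, -, h5⟩ := sort_nat ha' hb' hcop h1
    exact ⟨t, h2, h3, h4, h5⟩
  · obtain ⟨t, h2, h3, h4, h5, h6⟩ := sort_nat hb' hc' hcop2 h1
    refine ⟨t, h2, h5, h3, ?_⟩
    rw [h6]; ring
  · obtain ⟨t, h2, h3, h4, h5, h6⟩ := sort_nat ha' hc' hcop3 h1
    refine ⟨t, h2, h3, h5, ?_⟩
    rw [h6]; ring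

/-- the fibre: the number of quotients of two members of a triple, with sign -/
lemma fibre (t : Fin 3 → ℕ) (A B : ℤ) (hA : A ≠ 0) (hB : B ≠ 0) (F : Finset ℤ)
    (hF : ∀ x ∈ F, x ≠ 0 ∧ ∃ i j : Fin 3, t j ≠ 0 ∧
      (A * x).natAbs * t j = B.natAbs * t i) : F.card ≤ 18 := by
  classical
  have h1 : F ⊆ (Finset.univ : Finset (Fin 3 × Fin 3 × Bool)).biUnion fun s =>
      F.filter fun x => (t s.2.1 ≠ 0 ∧ (A * x).natAbs * t s.2.1 = B.natAbs * t s.1) ∧
        (0 < x ↔ s.2.2 = true) := by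
    intro x hx
    obtain ⟨-, i, j, h2, h3⟩ := hF x hx
    rw [Finset.mem_biUnion]
    by_cases hpos : 0 < x
    · exact ⟨(i, j, true), Finset.mem_univ _, Finset.mem_filter.2 ⟨hx, ⟨h2, h3⟩, by simp [hpos]⟩⟩
    · exact ⟨(i, j, false), Finset.mem_univ _, Finset.mem_filter.2 ⟨hx, ⟨h2, h3⟩, by simp [hpos]⟩⟩
  refine (Finset.card_le_card h1).trans (Finset.card_biUnion_le.trans ?_)
  have h4 : ∀ s ∈ (Finset.univ : Finset (Fin 3 × Fin 3 × Bool)),
      (F.filter fun x => (t s.2.1 ≠ 0 ∧ (A * x).natAbs * t s.2.1 = B.natAbs * t s.1) ∧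
        (0 < x ↔ s.2.2 = true)).card ≤ 1 := by
    intro s _
    rw [Finset.card_le_one]
    intro x hx y hy
    obtain ⟨hxF, ⟨g1, g2⟩, g3⟩ := Finset.mem_filter.1 hx
    obtain ⟨hyF, ⟨-, g5⟩, g6⟩ := Finset.mem_filter.1 hy
    have g7 : (A * x).natAbs = (A * y).natAbs := by
      have := g2.trans g5.symm
      exact Nat.eq_of_mul_eq_mul_right (Nat.pos_of_ne_zero g1) this
    rw [Int.natAbs_mul, Int.natAbs_mul] at g7
    have g8 : x.natAbs = y.natAbs :=
      Nat.eq_of_mul_eq_mul_left (Int.natAbs_pos.2 hA) g7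
    have g9 := (hF x hxF).1
    have g10 := (hF y hyF).1
    have g11 : 0 < x ↔ 0 < y := g3.trans g6.symm
    rcases Int.natAbs_eq_natAbs_iff.1 g8 with h | h
    · exact h
    · exfalso
      by_cases hp : 0 < x
      · have := g11.1 hp; omega
      · have : ¬ 0 < y := fun h' => hp (g11.2 h')
        omega
  refine (Finset.sum_le_sum h4).trans ?_
  simp [Fintype.card_prod]

/-- the number of the integers with a given relation -/
lemma count_one (ε : ℝ) (hε : 0 < ε) : ∃ D : ℝ, 0 < D ∧ ∀ (H : ℕ) (k : ℤ) (Y : ℝ), 1 ≤ H → k ≠ 0 →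
    1 ≤ Y → ∀ (A B E : ℤ), A ≠ 0 → B ≠ 0 → E ≠ 0 → |A| ≤ H → |B| ≤ H → |E| ≤ H →
    ∀ F : Finset ℤ, (∀ x ∈ F, x ≠ 0 ∧ ∃ y : ℤ, y ≠ 0 ∧ A * x + B * k = E * y ∧
      (rad x : ℝ) * rad y ≤ Y) →
    (F.card : ℝ) ≤ D * ((H : ℝ) ^ 3 * rad k * Y) ^ ε *
      ((H * rad k) * ((H : ℝ) ^ 3 * rad k * Y)) ^ (1 / 2 : ℝ) := by
  classical
  obtain ⟨D, hD, hmain⟩ := Pool.Agent.TH867.SB.ref_all ε hε
  refine ⟨18 * D, by positivity, ?_⟩
  intro H k Y hH hk hY A B E hA hB hE hAH hBH hEH F hF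
  have hH1 : (1 : ℝ) ≤ H := by exact_mod_cast hH
  have hR1 := one_le_rad k
  -- the triple of x
  have key : ∀ x ∈ F, ∃ t : Fin 3 → ℕ, Tr t ∧
      rr t 0 + rr t 1 + rr t 2 ≤ Real.log ((H : ℝ) ^ 3 * rad k * Y) ∧
      (∃ i, rr t i ≤ Real.log (H * rad k)) ∧
      ∃ i j : Fin 3, t j ≠ 0 ∧ (A * x).natAbs * t j = (B * k).natAbs * t i := by
    intro x hx
    obtain ⟨hx0, y, hy0, hrel, hrad⟩ := hF x hx
    set a := A * x with ha
    set b := B * k with hb
    set c := E * y with hc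
    have ha0 : a ≠ 0 := mul_ne_zero hA hx0
    have hb0 : b ≠ 0 := mul_ne_zero hB hk
    have hc0 : c ≠ 0 := mul_ne_zero hE hy0
    have hg : Int.gcd a b ≠ 0 := by
      intro h
      rw [Int.gcd_eq_zero_iff] at h
      exact ha0 h.1
    obtain ⟨a', ha'⟩ : (Int.gcd a b : ℤ) ∣ a := Int.gcd_dvd_left ..
    obtain ⟨b', hb'⟩ : (Int.gcd a b : ℤ) ∣ b := Int.gcd_dvd_right ..
    set g : ℤ := (Int.gcd a b : ℤ) with hgdef
    have hg0 : g ≠ 0 := by rw [hgdef]; exact_mod_cast hg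
    have hcop : IsCoprime a' b' := by
      have h1 := Int.gcd_eq_gcd_ab a b
      rw [← hgdef] at h1
      refine ⟨Int.gcdA a b, Int.gcdB a b, ?_⟩
      have h2 : g * (Int.gcdA a b * a' + Int.gcdB a b * b') = g * 1 := by
        calc g * (Int.gcdA a b * a' + Int.gcdB a b * b')
            = (g * a') * Int.gcdA a b + (g * b') * Int.gcdB a b := by ring
          _ = a * Int.gcdA a b + b * Int.gcdB a b := by rw [← ha', ← hb']
          _ = g * 1 := by rw [mul_one]; exact h1.symm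
      exact mul_left_cancel₀ hg0 h2
    have hc' : c = g * (a' + b') := by
      rw [← hrel, mul_add, ← ha', ← hb']
    have ha'0 : a' ≠ 0 := by
      intro h; rw [h, mul_zero] at ha'; exact ha0 ha'
    have hb'0 : b' ≠ 0 := by
      intro h; rw [h, mul_zero] at hb'; exact hb0 hb'
    have hc'0 : a' + b' ≠ 0 := by
      intro h; rw [h, mul_zero] at hc'; exact hc0 hc'
    obtain ⟨t, ht, ⟨i, hi⟩, ⟨j, hj⟩, hsum⟩ := sort_int ha'0 hb'0 hc'0 hcop rfl
    have hla : lr a'.natAbs ≤ Real.log H + Real.log (rad x) := by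
      have h1 : a'.natAbs ∣ A.natAbs * x.natAbs := by
        rw [← Int.natAbs_mul, ← ha, Int.natAbs_dvd_natAbs]
        exact ⟨g, by rw [mul_comm]; exact ha'⟩
      have h2 := lr_mono (Nat.mul_ne_zero (Int.natAbs_ne_zero.2 hA) (Int.natAbs_ne_zero.2 hx0)) h1
      have h3 := lr_mul A.natAbs x.natAbs (Int.natAbs_ne_zero.2 hA) (Int.natAbs_ne_zero.2 hx0)
      have h4 := lr_le_log (Int.natAbs_ne_zero.2 hA)
      have h5 : Real.log (A.natAbs : ℝ) ≤ Real.log H := by
        refine Real.log_le_log (by exact_mod_cast Int.natAbs_pos.2 hA) ?_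
        rw [← Int.natCast_natAbs] at hAH
        exact_mod_cast hAH
      rw [← lr_eq x]
      linarith
    have hlb : lr b'.natAbs ≤ Real.log H + Real.log (rad k) := by
      have h1 : b'.natAbs ∣ B.natAbs * k.natAbs := by
        rw [← Int.natAbs_mul, ← hb, Int.natAbs_dvd_natAbs]
        exact ⟨g, by rw [mul_comm]; exact hb'⟩
      have h2 := lr_mono (Nat.mul_ne_zero (Int.natAbs_ne_zero.2 hB) (Int.natAbs_ne_zero.2 hk)) h1
      have h3 := lr_mul B.natAbs k.natAbs (Int.natAbs_ne_zero.2 hB) (Int.natAbs_ne_zero.2 hk)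
      have h4 := lr_le_log (Int.natAbs_ne_zero.2 hB)
      have h5 : Real.log (B.natAbs : ℝ) ≤ Real.log H := by
        refine Real.log_le_log (by exact_mod_cast Int.natAbs_pos.2 hB) ?_
        rw [← Int.natCast_natAbs] at hBH
        exact_mod_cast hBH
      rw [← lr_eq k]
      linarith
    have hlc : lr (a' + b').natAbs ≤ Real.log H + Real.log (rad y) := by
      have h1 : (a' + b').natAbs ∣ E.natAbs * y.natAbs := by
        rw [← Int.natAbs_mul, ← hc, Int.natAbs_dvd_natAbs]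
        exact ⟨g, by rw [mul_comm]; exact hc'⟩
      have h2 := lr_mono (Nat.mul_ne_zero (Int.natAbs_ne_zero.2 hE) (Int.natAbs_ne_zero.2 hy0)) h1
      have h3 := lr_mul E.natAbs y.natAbs (Int.natAbs_ne_zero.2 hE) (Int.natAbs_ne_zero.2 hy0)
      have h4 := lr_le_log (Int.natAbs_ne_zero.2 hE)
      have h5 : Real.log (E.natAbs : ℝ) ≤ Real.log H := by
        refine Real.log_le_log (by exact_mod_cast Int.natAbs_pos.2 hE) ?_
        rw [← Int.natCast_natAbs] at hEH
        exact_mod_cast hEH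
      rw [← lr_eq y]
      linarith
    have hlY : Real.log (rad x) + Real.log (rad y) ≤ Real.log Y := by
      rw [← Real.log_mul (by linarith [one_le_rad x]) (by linarith [one_le_rad y])]
      refine Real.log_le_log ?_ hrad
      have := one_le_rad x
      have := one_le_rad y
      positivity
    refine ⟨t, ht, ?_, ⟨j, ?_⟩, i, j, ?_, ?_⟩
    · rw [hsum, Real.log_mul (by positivity) (by linarith), Real.log_mul (by positivity)
        (by positivity), Real.log_pow]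
      push_cast
      linarith
    · rw [Real.log_mul (by positivity) (by positivity)]
      have : rr t j = lr (t j) := rfl
      rw [this, hj]
      exact hlb
    · rw [hj]; exact Int.natAbs_ne_zero.2 hb'0
    · rw [hi, hj, ha', hb', Int.natAbs_mul, Int.natAbs_mul]
      ring
  choose! t ht using key
  have hfib : F.card ≤ 18 * (F.image t).card := by
    refine Finset.card_le_mul_card_image F _ ?_
    intro τ _
    refine fibre τ A (B * k) hA (mul_ne_zero hB hk) _ ?_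
    intro x hx
    obtain ⟨h1, h2⟩ := Finset.mem_filter.1 hx
    obtain ⟨-, -, -, i, j, h3, h4⟩ := ht x h1
    rw [h2] at h3 h4
    exact ⟨(hF x h1).1, i, j, h3, h4⟩
  have hX : (1 : ℝ) ≤ (H : ℝ) ^ 3 * rad k * Y := by
    have : (1 : ℝ) ≤ (H : ℝ) ^ 3 := one_le_pow₀ hH1
    have h2 : (1 : ℝ) ≤ (H : ℝ) ^ 3 * rad k := by nlinarith
    nlinarith
  have hAA : (1 : ℝ) ≤ H * rad k := by nlinarith
  have h5 := hmain _ _ hX hAA (F.image t) (by
    intro τ hτ
    obtain ⟨x, hx, rfl⟩ := Finset.mem_image.1 hτ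
    obtain ⟨g1, g2, g3, -⟩ := ht x hx
    exact ⟨g1, g2, g3⟩)
  have h6 : (F.card : ℝ) ≤ 18 * ((F.image t).card : ℝ) := by exact_mod_cast hfib
  calc (F.card : ℝ) ≤ 18 * ((F.image t).card : ℝ) := h6
    _ ≤ 18 * (D * ((H : ℝ) ^ 3 * rad k * Y) ^ ε *
      ((H * rad k) * ((H : ℝ) ^ 3 * rad k * Y)) ^ (1 / 2 : ℝ)) := by linarith
    _ = _ := by ring

end Pool.Agent.X61.RT
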