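import Mathlib
import Pool.Agent.X61.RT.Core

/-!
Few terms of small radical: the abstract statement for orbits.
-/

set_option autoImplicit false

namespace Pool.Agent.X61.RT

open Finset

lemma count_all (ε : ℝ) (hε : 0 < ε) (hε1 : ε ≤ 1) : ∃ D : ℝ, 0 < D ∧
    ∀ (H : ℕ) (k : ℤ) (Y : ℝ), 1 ≤ H → k ≠ 0 → 1 ≤ Y →
    ∀ F : Finset ℤ, (∀ x ∈ F, x ≠ 0 ∧ ∃ A B E y : ℤ, A ≠ 0 ∧ B ≠ 0 ∧ E ≠ 0 ∧ |A| ≤ H ∧ |B| ≤ H ∧
      |E| ≤ H ∧ y ≠ 0 ∧ A * x + B * k = E * y ∧ (rad x : ℝ) * rad y ≤ Y) →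
    (F.card : ℝ) ≤ D * (H : ℝ) ^ 8 * (rad k : ℝ) ^ (1 + ε) * Y ^ (1 / 2 + ε) := by
  classical
  obtain ⟨D, hD, hmain⟩ := count_one ε hε
  refine ⟨27 * D, by positivity, ?_⟩
  intro H k Y hH hk hY F hF
  have hH1 : (1 : ℝ) ≤ H := by exact_mod_cast hH
  have hR1 := one_le_rad k
  have hR0 : (0 : ℝ) < rad k := by linarith
  set I : Finset ℤ := Finset.Icc (-(H : ℤ)) H with hI
  set W : Finset (ℤ × ℤ × ℤ) := (I ×ˢ I ×ˢ I).filter fun s => s.1 ≠ 0 ∧ s.2.1 ≠ 0 ∧ s.2.2 ≠ 0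
    with hW
  have hsub : F ⊆ W.biUnion fun s => F.filter fun x => ∃ y : ℤ, y ≠ 0 ∧
      s.1 * x + s.2.1 * k = s.2.2 * y ∧ (rad x : ℝ) * rad y ≤ Y := by
    intro x hx
    obtain ⟨h0, A, B, E, y, hA, hB, hE, hAH, hBH, hEH, hy, hrel, hrad⟩ := hF x hx
    rw [Finset.mem_biUnion]
    refine ⟨(A, B, E), ?_, Finset.mem_filter.2 ⟨hx, y, hy, hrel, hrad⟩⟩
    rw [hW, Finset.mem_filter]
    refine ⟨?_, hA, hB, hE⟩
    simp only [Finset.mem_product, hI, Finset.mem_Icc]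
    rw [abs_le] at hAH hBH hEH
    exact ⟨hAH, hBH, hEH⟩
  have hWcard : (W.card : ℝ) ≤ 27 * (H : ℝ) ^ 3 := by
    have h1 : W.card ≤ (I ×ˢ I ×ˢ I).card := Finset.card_filter_le _ _
    have h2 : I.card = 2 * H + 1 := by
      rw [hI, Int.card_Icc]; omega
    rw [Finset.card_product, Finset.card_product, h2] at h1
    have h3 : (W.card : ℝ) ≤ (2 * H + 1) * ((2 * H + 1) * (2 * H + 1)) := by exact_mod_cast h1
    have h4 : (2 * (H : ℝ) + 1) ≤ 3 * H := by linarith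
    have h5 : (2 * (H : ℝ) + 1) * ((2 * H + 1) * (2 * H + 1)) ≤ (3 * H) * ((3 * H) * (3 * H)) := by
      gcongr
    calc (W.card : ℝ) ≤ _ := h3
      _ ≤ _ := h5
      _ = _ := by ring
  set V : ℝ := D * ((H : ℝ) ^ 3 * rad k * Y) ^ ε *
      ((H * rad k) * ((H : ℝ) ^ 3 * rad k * Y)) ^ (1 / 2 : ℝ) with hV
  have hV0 : 0 ≤ V := by positivity
  have h1 : (F.card : ℝ) ≤ W.card * V := by
    have h2 := (Finset.card_le_card hsub).trans Finset.card_biUnion_le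
    have h3 : (F.card : ℝ) ≤ ∑ s ∈ W, ((F.filter fun x => ∃ y : ℤ, y ≠ 0 ∧
      s.1 * x + s.2.1 * k = s.2.2 * y ∧ (rad x : ℝ) * rad y ≤ Y).card : ℝ) := by exact_mod_cast h2
    refine h3.trans ?_
    rw [← nsmul_eq_mul]
    refine Finset.sum_le_card_nsmul _ _ _ ?_
    intro s hs
    rw [hW, Finset.mem_filter] at hs
    simp only [Finset.mem_product, hI, Finset.mem_Icc] at hs
    obtain ⟨⟨g1, g2, g3⟩, g4, g5, g6⟩ := hs
    refine hmain H k Y hH hk hY s.1 s.2.1 s.2.2 g4 g5 g6 (abs_le.2 g1) (abs_le.2 g2) (abs_le.2 g3)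
      _ ?_
    intro x hx
    obtain ⟨hx1, y, hy1, hy2, hy3⟩ := Finset.mem_filter.1 hx
    exact ⟨(hF x hx1).1, y, hy1, hy2, hy3⟩
  have hH0 : (0 : ℝ) < H := by linarith
  have hY0 : (0 : ℝ) < Y := by linarith
  have h2 : V ≤ D * (H : ℝ) ^ 5 * (rad k : ℝ) ^ (1 + ε) * Y ^ (1 / 2 + ε) := by
    have e1 : ((H : ℝ) ^ 3 * rad k * Y) ^ ε = ((H : ℝ) ^ (3 : ℝ)) ^ ε * (rad k : ℝ) ^ ε * Y ^ ε := by
      rw [Real.mul_rpow (by positivity) (by positivity), Real.mul_rpow (by positivity)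
        (by positivity)]
      norm_cast
    have e2 : ((H * rad k) * ((H : ℝ) ^ 3 * rad k * Y)) ^ (1 / 2 : ℝ) =
        (H : ℝ) ^ 2 * rad k * Y ^ (1 / 2 : ℝ) := by
      have : (H * rad k) * ((H : ℝ) ^ 3 * rad k * Y) = ((H : ℝ) ^ 2 * rad k) ^ 2 * Y := by ring
      rw [this, Real.mul_rpow (by positivity) (by positivity), ← Real.sqrt_eq_rpow,
        Real.sqrt_sq (by positivity)]
    have e3 : ((H : ℝ) ^ (3 : ℝ)) ^ ε ≤ (H : ℝ) ^ 3 := by
      rw [← Real.rpow_mul hH0.le]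
      have : (H : ℝ) ^ (3 * ε) ≤ (H : ℝ) ^ (3 : ℝ) :=
        Real.rpow_le_rpow_of_exponent_le hH1 (by linarith)
      refine this.trans_eq ?_
      norm_cast
    rw [hV, e1, e2, Real.rpow_add hR0, Real.rpow_one, Real.rpow_add hY0]
    calc D * (((H : ℝ) ^ (3 : ℝ)) ^ ε * (rad k : ℝ) ^ ε * Y ^ ε) *
        ((H : ℝ) ^ 2 * rad k * Y ^ (1 / 2 : ℝ))
        ≤ D * ((H : ℝ) ^ 3 * (rad k : ℝ) ^ ε * Y ^ ε) *
        ((H : ℝ) ^ 2 * rad k * Y ^ (1 / 2 : ℝ)) := by gcongr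
      _ = _ := by ring
  calc (F.card : ℝ) ≤ W.card * V := h1
    _ ≤ (27 * (H : ℝ) ^ 3) * (D * (H : ℝ) ^ 5 * (rad k : ℝ) ^ (1 + ε) * Y ^ (1 / 2 + ε)) := by
        gcongr
    _ = _ := by ring

/-- disjoint segments -/
lemma seg {α : Type*} [DecidableEq α] (f : α → α) (G : Set α) (hG : Set.MapsTo f G G)
    (hinj : Set.InjOn f G) (Bad F : Finset α) (J : ℕ) (hB : ∀ b ∈ Bad, b ∈ G)
    (hF : ∀ b ∈ Bad, ∀ j ≤ J, f^[j] b ∈ F)
    (hno : ∀ b ∈ Bad, ∀ j, 1 ≤ j → j ≤ J → f^[j] b ∉ Bad) : Bad.card * (J + 1) ≤ F.card := by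
  have hit : ∀ b ∈ G, ∀ j, f^[j] b ∈ G := by
    intro b hb j
    induction j with
    | zero => exact hb
    | succ j ih => rw [Function.iterate_succ_apply']; exact hG ih
  have hcancel : ∀ i, ∀ b ∈ G, ∀ c ∈ G, f^[i] b = f^[i] c → b = c := by
    intro i
    induction i with
    | zero => intro b _ c _ h; exact h
    | succ i ih =>
      intro b hb c hc h
      rw [Function.iterate_succ_apply', Function.iterate_succ_apply'] at h
      exact ih b hb c hc (hinj (hit b hb i) (hit c hc i) h)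
  have h1 : (Bad ×ˢ Finset.range (J + 1)).card ≤ F.card := by
    refine Finset.card_le_card_of_injOn (fun s => f^[s.2] s.1) ?_ ?_
    · intro s hs
      rw [Finset.mem_coe, Finset.mem_product, Finset.mem_range] at hs
      exact hF s.1 hs.1 s.2 (by omega)
    · rintro ⟨b, i⟩ hs ⟨c, j⟩ hs' h
      rw [Finset.mem_coe, Finset.mem_product, Finset.mem_range] at hs hs'
      simp only at hs hs' h
      obtain ⟨hb, hi⟩ := hs
      obtain ⟨hc, hj⟩ := hs'
      rcases lt_trichotomy i j with hij | hij | hij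
      · exfalso
        have h2 : f^[i] b = f^[i] (f^[j - i] c) := by
          rw [← Function.iterate_add_apply, Nat.add_sub_cancel' hij.le, h]
        have h3 := hcancel i b (hB b hb) _ (hit c (hB c hc) _) h2
        exact hno c hc (j - i) (by omega) (by omega) (h3 ▸ hb)
      · subst hij
        rw [hcancel i b (hB b hb) c (hB c hc) h]
      · exfalso
        have h2 : f^[j] c = f^[j] (f^[i - j] b) := by
          rw [← Function.iterate_add_apply, Nat.add_sub_cancel' hij.le, h]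
        have h3 := hcancel j c (hB c hc) _ (hit b (hB b hb) _) h2
        exact hno b hb (i - j) (by omega) (by omega) (h3 ▸ hc)
  rw [Finset.card_product, Finset.card_range] at h1
  exact h1

/-- **Few terms of small radical.** -/
theorem rare (ε : ℝ) (hε : 0 < ε) (hε1 : ε < 1) (L : ℕ) (hL : 2 ≤ L) : ∃ C : ℝ, 0 < C ∧
    ∀ {α : Type} [DecidableEq α] (f : α → α) (v : α → ℤ) (G : Set α) (k : ℤ) (N : ℕ)
      (Bad : Finset α), Set.MapsTo f G G → Set.InjOn f G → k ≠ 0 → 2 ≤ N → (∀ b ∈ Bad, b ∈ G) →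
      (∀ b ∈ Bad, v b ≠ 0 ∧ (rad k : ℝ) * rad (v b) ≤ (N : ℝ) ^ (1 - ε)) →
      (∀ b ∈ Bad, ∀ c ∈ Bad, v b = v c → b = c) →
      (∀ b ∈ Bad, ∀ j, 1 ≤ j → f^[j] b ∈ Bad → ∃ A B E : ℤ, A ≠ 0 ∧ B ≠ 0 ∧ E ≠ 0 ∧
        |A| ≤ (L : ℤ) ^ j ∧ |B| ≤ (L : ℤ) ^ j ∧ |E| ≤ (L : ℤ) ^ j ∧
        A * v b + B * k = E * v (f^[j] b)) →
      (∀ J : ℕ, ∃ F : Finset α, F.card ≤ N + J ∧ ∀ b ∈ Bad, ∀ j ≤ J, f^[j] b ∈ F) →
      (Bad.card : ℝ) ≤ C * (N / Real.log N) := by
  classical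
  obtain ⟨D, hD, hmain⟩ := count_all (ε / 4) (by linarith) (by linarith)
  have hL1 : (1 : ℝ) < L := by
    have : 1 < L := by omega
    exact_mod_cast this
  have hlogL : 0 < Real.log L := Real.log_pos hL1
  have hlogL2 : Real.log 2 ≤ Real.log L := by
    refine Real.log_le_log (by norm_num) ?_
    exact_mod_cast hL
  have hlog2 : (1 / 2 : ℝ) < Real.log 2 := by
    have := Real.log_two_gt_d9
    linarith
  set c : ℝ := ε / (32 * Real.log L) with hc
  have hc0 : 0 < c := by positivity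
  have hc1 : c ≤ 1 := by
    rw [hc, div_le_one (by positivity)]
    nlinarith
  refine ⟨2 / c + D * (4 / ε), by positivity, ?_⟩
  intro α _ f v G k N Bad hGG hinj hk hN hBG hBad hv hrel hFin
  have hN1 : (1 : ℝ) < N := by
    have : 1 < N := by omega
    exact_mod_cast this
  have hN0 : (0 : ℝ) < N := by linarith
  have hlogN : 0 < Real.log N := Real.log_pos hN1
  set J : ℕ := ⌊c * Real.log N⌋₊ with hJ
  have hJ1 : (J : ℝ) ≤ c * Real.log N := Nat.floor_le (by positivity)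
  have hJ2 : c * Real.log N < J + 1 := Nat.lt_floor_add_one _
  set B1 : Finset α := Bad.filter fun b => ∃ j, 1 ≤ j ∧ j ≤ J ∧ f^[j] b ∈ Bad with hB1
  set B2 : Finset α := Bad.filter fun b => ¬ ∃ j, 1 ≤ j ∧ j ≤ J ∧ f^[j] b ∈ Bad with hB2
  have hsplit : Bad.card = B1.card + B2.card := by
    rw [hB1, hB2, Finset.card_filter_add_card_filter_not]
  -- the isolated ones
  have h2 : (B2.card : ℝ) ≤ 2 / c * (N / Real.log N) := by
    obtain ⟨F, hF1, hF2⟩ := hFin J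
    have h3 := seg f G hGG hinj B2 F J (fun b hb => hBG b (Finset.mem_filter.1 hb).1)
      (fun b hb => hF2 b (Finset.mem_filter.1 hb).1) (fun b hb j hj1 hj2 hj3 =>
        (Finset.mem_filter.1 hb).2 ⟨j, hj1, hj2, (Finset.mem_filter.1 hj3).1⟩)
    have h4 : (B2.card : ℝ) * (J + 1) ≤ N + J := by exact_mod_cast h3.trans hF1
    have h5 : (J : ℝ) ≤ N := by
      have := Real.log_le_self hN0.le
      nlinarith
    have h6 : (B2.card : ℝ) * (c * Real.log N) ≤ 2 * N := by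
      have : (B2.card : ℝ) * (c * Real.log N) ≤ (B2.card : ℝ) * (J + 1) :=
        mul_le_mul_of_nonneg_left hJ2.le (Nat.cast_nonneg _)
      linarith
    rw [div_mul_div_comm, le_div_iff₀ (by positivity)]
    exact h6
  -- the others
  have h1 : (B1.card : ℝ) ≤ D * (4 / ε) * (N / Real.log N) := by
    rcases B1.eq_empty_or_nonempty with h0 | ⟨b0, hb0⟩
    · rw [h0, Finset.card_empty]
      simp only [Nat.cast_zero]
      positivity
    have hR1 := one_le_rad k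
    have hR0 : (0 : ℝ) < rad k := by linarith
    set Q : ℝ := (N : ℝ) ^ (1 - ε) / rad k with hQ
    have hQ1 : 1 ≤ Q := by
      rw [hQ, le_div_iff₀ hR0, one_mul]
      have h3 := (hBad b0 (Finset.mem_filter.1 hb0).1).2
      have h4 := one_le_rad (v b0)
      nlinarith
    have hq : ∀ b ∈ Bad, (rad (v b) : ℝ) ≤ Q := by
      intro b hb
      rw [hQ, le_div_iff₀ hR0, mul_comm]
      exact (hBad b hb).2
    set H : ℕ := L ^ J with hH
    have hH1 : 1 ≤ H := Nat.one_le_pow _ _ (by omega)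
    have h3 := hmain H k (Q ^ 2) hH1 hk (one_le_pow₀ hQ1) (B1.image v) (by
      intro x hx
      obtain ⟨b, hb, rfl⟩ := Finset.mem_image.1 hx
      obtain ⟨hb1, j, hj1, hj2, hj3⟩ := Finset.mem_filter.1 hb
      refine ⟨(hBad b hb1).1, ?_⟩
      obtain ⟨A, B, E, g1, g2, g3, g4, g5, g6, g7⟩ := hrel b hb1 j hj1 hj3
      have hpow : (L : ℤ) ^ j ≤ (H : ℤ) := by
        rw [hH]
        push_cast
        exact pow_le_pow_right₀ (by exact_mod_cast (by omega : 1 ≤ L)) hj2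
      refine ⟨A, B, E, v (f^[j] b), g1, g2, g3, g4.trans hpow, g5.trans hpow, g6.trans hpow,
        (hBad _ hj3).1, g7, ?_⟩
      rw [pow_two]
      exact mul_le_mul (hq b hb1) (hq _ hj3) (Nat.cast_nonneg _) (by linarith))
    rw [Finset.card_image_of_injOn (by
      intro b hb c hc h
      exact hv b (Finset.mem_filter.1 hb).1 c (Finset.mem_filter.1 hc).1 h)] at h3
    refine h3.trans ?_
    have hQ0 : 0 < Q := by linarith
    -- the power of L
    have h4 : (H : ℝ) ^ 8 ≤ (N : ℝ) ^ (ε / 4) := by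
      have e1 : (H : ℝ) ^ 8 = Real.exp (8 * (J * Real.log L)) := by
        rw [hH]
        push_cast
        rw [← pow_mul, ← Real.exp_log (by positivity : (0 : ℝ) < (L : ℝ) ^ (J * 8)), Real.log_pow]
        congr 1
        push_cast
        ring
      rw [e1, Real.rpow_def_of_pos hN0]
      refine Real.exp_le_exp.2 ?_
      have e2 : J * Real.log L ≤ c * Real.log N * Real.log L :=
        mul_le_mul_of_nonneg_right hJ1 hlogL.le
      have e3 : c * Real.log N * Real.log L = ε / 32 * Real.log N := by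
        rw [hc]
        field_simp
      linarith
    have h5 : (rad k : ℝ) ^ (1 + ε / 4) * (Q ^ 2) ^ (1 / 2 + ε / 4) ≤ (N : ℝ) ^ (1 - ε / 2) := by
      have e1 : (Q ^ 2) ^ (1 / 2 + ε / 4) = Q ^ (1 + ε / 2) := by
        rw [← Real.rpow_natCast Q 2, ← Real.rpow_mul hQ0.le]
        congr 1
        push_cast
        ring
      have e2 : (rad k : ℝ) ^ (1 + ε / 4) ≤ (rad k : ℝ) ^ (1 + ε / 2) :=
        Real.rpow_le_rpow_of_exponent_le hR1 (by linarith)
      have e3 : (rad k : ℝ) ^ (1 + ε / 2) * Q ^ (1 + ε / 2) = ((N : ℝ) ^ (1 - ε)) ^ (1 + ε / 2) := by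
        rw [← Real.mul_rpow hR0.le hQ0.le, hQ, mul_div_cancel₀ _ hR0.ne']
      have e4 : ((N : ℝ) ^ (1 - ε)) ^ (1 + ε / 2) ≤ (N : ℝ) ^ (1 - ε / 2) := by
        rw [← Real.rpow_mul hN0.le]
        refine Real.rpow_le_rpow_of_exponent_le hN1.le ?_
        nlinarith
      rw [e1]
      calc (rad k : ℝ) ^ (1 + ε / 4) * Q ^ (1 + ε / 2)
          ≤ (rad k : ℝ) ^ (1 + ε / 2) * Q ^ (1 + ε / 2) := by gcongr
        _ = _ := e3
        _ ≤ _ := e4
    have h6 : Real.log N ≤ 4 / ε * (N : ℝ) ^ (ε / 4) := by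
      have e1 : Real.log ((N : ℝ) ^ (ε / 4)) ≤ (N : ℝ) ^ (ε / 4) :=
        Real.log_le_self (by positivity)
      rw [Real.log_rpow hN0] at e1
      calc Real.log N = 4 / ε * (ε / 4 * Real.log N) := by field_simp
        _ ≤ _ := by gcongr
    calc D * (H : ℝ) ^ 8 * (rad k : ℝ) ^ (1 + ε / 4) * (Q ^ 2) ^ (1 / 2 + ε / 4)
        = D * ((H : ℝ) ^ 8 * ((rad k : ℝ) ^ (1 + ε / 4) * (Q ^ 2) ^ (1 / 2 + ε / 4))) := by ring
      _ ≤ D * ((N : ℝ) ^ (ε / 4) * (N : ℝ) ^ (1 - ε / 2)) := by gcongr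
      _ = D * ((N : ℝ) ^ (1 - ε / 4)) := by
          rw [← Real.rpow_add hN0]
          congr 2
          ring
      _ ≤ D * (4 / ε * (N / Real.log N)) := by
          refine mul_le_mul_of_nonneg_left ?_ hD.le
          rw [mul_div_assoc', le_div_iff₀ hlogN]
          calc (N : ℝ) ^ (1 - ε / 4) * Real.log N
              ≤ (N : ℝ) ^ (1 - ε / 4) * (4 / ε * (N : ℝ) ^ (ε / 4)) := by gcongr
            _ = 4 / ε * ((N : ℝ) ^ (1 - ε / 4) * (N : ℝ) ^ (ε / 4)) := by ring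
            _ = 4 / ε * N := by
                rw [← Real.rpow_add hN0]
                congr 1
                rw [sub_add_cancel, Real.rpow_one]
      _ = _ := by ring
  rw [hsplit]
  push_cast
  have : (2 / c + D * (4 / ε)) * (N / Real.log N) =
      2 / c * (N / Real.log N) + D * (4 / ε) * (N / Real.log N) := by ring
  linarith

end Pool.Agent.X61.RT
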