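import Mathlib
import Pool.Agent.X61.RT.Rare

/-!
The maps `x / 2`, `(a x + k) / 2` for odd `a`, `k`: the affine formula for the iterates.
-/

set_option autoImplicit false

namespace Pool.Agent.X61.RT

/-- the map `x / 2` (`x` even), `(a x + k) / 2` (`x` odd) -/
def Ta (a k x : ℤ) : ℤ := if x % 2 = 0 then x / 2 else (a * x + k) / 2

/-- the number of odd terms -/
def od (a k x : ℤ) : ℕ → ℕ
  | 0 => 0
  | n + 1 => od a k x n + if (Ta a k)^[n] x % 2 = 0 then 0 else 1

/-- the constant term -/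
def co (a k x : ℤ) : ℕ → ℤ
  | 0 => 0
  | n + 1 => if (Ta a k)^[n] x % 2 = 0 then co a k x n else a * co a k x n + 2 ^ n

variable {a k : ℤ} (ha : a % 2 = 1) (hk : k % 2 = 1)

lemma Ta_even {x : ℤ} (h : x % 2 = 0) : 2 * Ta a k x = x := by
  unfold Ta
  rw [if_pos h]
  omega

include ha hk in
lemma Ta_odd {x : ℤ} (h : ¬ x % 2 = 0) : 2 * Ta a k x = a * x + k := by
  unfold Ta
  rw [if_neg h]
  have h1 : (a * x + k) % 2 = 0 := by
    have hx : x % 2 = 1 := by omega
    rw [Int.add_emod, Int.mul_emod, ha, hx, hk]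
    rfl
  omega

include ha hk in
lemma Ta_affine (x : ℤ) (n : ℕ) :
    2 ^ n * (Ta a k)^[n] x = a ^ od a k x n * x + k * co a k x n := by
  induction n with
  | zero => simp [od, co]
  | succ n ih =>
    rw [Function.iterate_succ_apply', pow_succ]
    by_cases h : (Ta a k)^[n] x % 2 = 0
    · simp only [od, co, if_pos h, add_zero]
      rw [mul_assoc, Ta_even h, ih]
    · simp only [od, co, if_neg h]
      rw [mul_assoc, Ta_odd ha hk h]
      have : (2 : ℤ) ^ n * (a * (Ta a k)^[n] x + k) = a * (2 ^ n * (Ta a k)^[n] x) + 2 ^ n * k := by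
        ring
      rw [this, ih]
      ring

lemma od_le (a k x : ℤ) (n : ℕ) : od a k x n ≤ n := by
  induction n with
  | zero => exact le_rfl
  | succ n ih =>
    rw [od]
    split_ifs <;> omega

lemma co_nonneg (ha1 : 1 ≤ a) (x : ℤ) (n : ℕ) : 0 ≤ co a k x n := by
  induction n with
  | zero => exact le_rfl
  | succ n ih =>
    rw [co]
    split_ifs
    · exact ih
    · positivity

lemma co_pos (ha1 : 1 ≤ a) {x : ℤ} (hx : ¬ x % 2 = 0) (n : ℕ) : 0 < co a k x (n + 1) := by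
  induction n with
  | zero =>
    have h0 : ¬ (Ta a k)^[0] x % 2 = 0 := hx
    rw [co, if_neg h0]
    simp [co]
  | succ n ih =>
    rw [co]
    split_ifs
    · exact ih
    · have : (0 : ℤ) < 2 ^ (n + 1) := by positivity
      have h2 : 0 ≤ a * co a k x (n + 1) := by positivity
      omega

lemma co_le (ha1 : 1 ≤ a) (x : ℤ) (n : ℕ) : co a k x n ≤ (a + 2) ^ n := by
  induction n with
  | zero => simp [co]
  | succ n ih =>
    have h2 : (2 : ℤ) ^ n ≤ (a + 2) ^ n := pow_le_pow_left₀ (by norm_num) (by linarith) n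
    have h3 : (0 : ℤ) < (a + 2) ^ n := by positivity
    rw [co, pow_succ]
    split_ifs
    · nlinarith
    · nlinarith

include ha hk in
/-- the relation between an odd term and a later one -/
lemma Ta_rel (ha1 : 1 ≤ a) {x : ℤ} (hx : ¬ x % 2 = 0) (L : ℕ) (hL : a + 2 ≤ L) {j : ℕ} (hj : 1 ≤ j) :
    ∃ A B E : ℤ, A ≠ 0 ∧ B ≠ 0 ∧ E ≠ 0 ∧ |A| ≤ (L : ℤ) ^ j ∧ |B| ≤ (L : ℤ) ^ j ∧
      |E| ≤ (L : ℤ) ^ j ∧ A * x + B * k = E * (Ta a k)^[j] x := by
  refine ⟨a ^ od a k x j, co a k x j, 2 ^ j, ?_, ?_, by positivity, ?_, ?_, ?_, ?_⟩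
  · exact pow_ne_zero _ (by omega)
  · obtain ⟨j', rfl⟩ : ∃ j', j = j' + 1 := ⟨j - 1, by omega⟩
    exact (co_pos ha1 hx j').ne'
  · rw [abs_of_nonneg (by positivity)]
    calc a ^ od a k x j ≤ a ^ j := pow_le_pow_right₀ ha1 (od_le a k x j)
      _ ≤ _ := pow_le_pow_left₀ (by positivity) (by linarith) j
  · rw [abs_of_nonneg (co_nonneg ha1 x j)]
    exact (co_le ha1 x j).trans (pow_le_pow_left₀ (by positivity) hL j)
  · rw [abs_of_nonneg (by positivity)]
    exact pow_le_pow_left₀ (by norm_num) (by linarith) j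
  · rw [Ta_affine ha hk]
    ring

end Pool.Agent.X61.RT
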