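import Mathlib
import Pool.Agent.X61.RT.Odd

/-!
Few terms of small radical for all `k` at once.
-/

set_option autoImplicit false

namespace Pool.Agent.X61.RT

open Finset Pool.Agent.TH867.SR

/-- the triple of a relation `a + b = c` between products -/
lemma triple_of {a b c : ℤ} (ha : a ≠ 0) (hb : b ≠ 0) (hc : c ≠ 0) (h : a + b = c) :
    ∃ t : Fin 3 → ℕ, Tr t ∧ rr t 0 + rr t 1 + rr t 2 ≤ lr a.natAbs + lr b.natAbs + lr c.natAbs ∧
      (∃ i, rr t i ≤ lr b.natAbs) ∧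
      ∃ i j : Fin 3, t j ≠ 0 ∧ a.natAbs * t j = b.natAbs * t i := by
  have hg : Int.gcd a b ≠ 0 := by
    intro h
    rw [Int.gcd_eq_zero_iff] at h
    exact ha h.1
  obtain ⟨a', ha'⟩ : (Int.gcd a b : ℤ) ∣ a := Int.gcd_dvd_left ..
  obtain ⟨b', hb'⟩ : (Int.gcd a b : ℤ) ∣ b := Int.gcd_dvd_right ..
  set g : ℤ := (Int.gcd a b : ℤ) with hgdef
  have hg0 : g ≠ 0 := by rw [hgdef]; exact_mod_cast hg
  have hcop : IsCoprime a' b' := by
    have h1 := Int.gcd_eq_gcd_ab a b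
    rw [← hgdef] at h1
    refine ⟨Int.gcdA a b, Int.gcdB a b, ?_⟩
    have h2 : g * (Int.gcdA a b * a' + Int.gcdB a b * b') = g * 1 := by
      calc g * (Int.gcdA a b * a' + Int.gcdB a b * b')
          = (g * a') * Int.gcdA a b + (g * b') * Int.gcdB a b := by ring
        _ = a * Int.gcdA a b + b * Int.gcdB a b := by rw [← ha', ← hb']
        _ = g * 1 := by rw [mul_one]; exact h1.symm
    exact mul_left_cancel₀ hg0 h2
  have hc' : c = g * (a' + b') := by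
    rw [← h, mul_add, ← ha', ← hb']
  have ha'0 : a' ≠ 0 := by
    intro h; rw [h, mul_zero] at ha'; exact ha ha'
  have hb'0 : b' ≠ 0 := by
    intro h; rw [h, mul_zero] at hb'; exact hb hb'
  have hc'0 : a' + b' ≠ 0 := by
    intro h; rw [h, mul_zero] at hc'; exact hc hc'
  obtain ⟨t, ht, ⟨i, hi⟩, ⟨j, hj⟩, hsum⟩ := sort_int ha'0 hb'0 hc'0 hcop rfl
  have hla : lr a'.natAbs ≤ lr a.natAbs := lr_mono (Int.natAbs_ne_zero.2 ha) (by
    rw [Int.natAbs_dvd_natAbs]; exact ⟨g, by rw [mul_comm]; exact ha'⟩)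
  have hlb : lr b'.natAbs ≤ lr b.natAbs := lr_mono (Int.natAbs_ne_zero.2 hb) (by
    rw [Int.natAbs_dvd_natAbs]; exact ⟨g, by rw [mul_comm]; exact hb'⟩)
  have hlc : lr (a' + b').natAbs ≤ lr c.natAbs := lr_mono (Int.natAbs_ne_zero.2 hc) (by
    rw [Int.natAbs_dvd_natAbs]; exact ⟨g, by rw [mul_comm]; exact hc'⟩)
  refine ⟨t, ht, ?_, ⟨j, ?_⟩, i, j, ?_, ?_⟩
  · rw [hsum]
    linarith
  · have : rr t j = lr (t j) := rfl
    rw [this, hj]
    exact hlb
  · rw [hj]; exact Int.natAbs_ne_zero.2 hb'0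
  · rw [hi, hj, ha', hb', Int.natAbs_mul, Int.natAbs_mul]
    ring

/-- the fibre over a triple, for coprime pairs -/
lemma fibre2 (t : Fin 3 → ℕ) (A B : ℤ) (hA : A ≠ 0) (hB : B ≠ 0) (F : Finset (ℤ × ℤ))
    (hF : ∀ s ∈ F, s.1 ≠ 0 ∧ s.2 ≠ 0 ∧ IsCoprime s.1 s.2 ∧ ∃ i j : Fin 3, t j ≠ 0 ∧
      (A * s.2).natAbs * t j = (B * s.1).natAbs * t i) : F.card ≤ 36 := by
  classical
  have h1 : F ⊆ (Finset.univ : Finset (Fin 3 × Fin 3 × Bool × Bool)).biUnion fun u =>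
      F.filter fun s => (t u.2.1 ≠ 0 ∧ (A * s.2).natAbs * t u.2.1 = (B * s.1).natAbs * t u.1) ∧
        (0 < s.1 ↔ u.2.2.1 = true) ∧ (0 < s.2 ↔ u.2.2.2 = true) := by
    intro s hs
    obtain ⟨-, -, -, i, j, h2, h3⟩ := hF s hs
    rw [Finset.mem_biUnion]
    exact ⟨(i, j, decide (0 < s.1), decide (0 < s.2)), Finset.mem_univ _,
      Finset.mem_filter.2 ⟨hs, ⟨h2, h3⟩, by simp, by simp⟩⟩
  refine (Finset.card_le_card h1).trans (Finset.card_biUnion_le.trans ?_)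
  have h4 : ∀ u ∈ (Finset.univ : Finset (Fin 3 × Fin 3 × Bool × Bool)),
      (F.filter fun s => (t u.2.1 ≠ 0 ∧ (A * s.2).natAbs * t u.2.1 = (B * s.1).natAbs * t u.1) ∧
        (0 < s.1 ↔ u.2.2.1 = true) ∧ (0 < s.2 ↔ u.2.2.2 = true)).card ≤ 1 := by
    intro u _
    rw [Finset.card_le_one]
    intro s hs s' hs'
    obtain ⟨hsF, ⟨g1, g2⟩, g3, g4⟩ := Finset.mem_filter.1 hs
    obtain ⟨hsF', ⟨-, g5⟩, g6, g7⟩ := Finset.mem_filter.1 hs'
    obtain ⟨k0, x0, hcop, -⟩ := hF s hsF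
    obtain ⟨k0', x0', hcop', -⟩ := hF s' hsF'
    -- the ratios agree
    rw [Int.natAbs_mul, Int.natAbs_mul] at g2 g5
    have hA' : 0 < A.natAbs := Int.natAbs_pos.2 hA
    have hB' : 0 < B.natAbs := Int.natAbs_pos.2 hB
    have hk : 0 < s.1.natAbs := Int.natAbs_pos.2 k0
    have hx : 0 < s.2.natAbs := Int.natAbs_pos.2 x0
    have htj : 0 < t u.2.1 := Nat.pos_of_ne_zero g1
    have hti : 0 < t u.1 := by
      rcases Nat.eq_zero_or_pos (t u.1) with h | h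
      · rw [h, mul_zero] at g2
        have : 0 < A.natAbs * s.2.natAbs * t u.2.1 := by positivity
        omega
      · exact h
    have h5 : s.2.natAbs * s'.1.natAbs = s'.2.natAbs * s.1.natAbs := by
      have h6 : (A.natAbs * t u.2.1 * (B.natAbs * t u.1)) * (s.2.natAbs * s'.1.natAbs) =
          (A.natAbs * t u.2.1 * (B.natAbs * t u.1)) * (s'.2.natAbs * s.1.natAbs) := by
        calc (A.natAbs * t u.2.1 * (B.natAbs * t u.1)) * (s.2.natAbs * s'.1.natAbs)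
            = (A.natAbs * s.2.natAbs * t u.2.1) * (B.natAbs * s'.1.natAbs * t u.1) := by ring
          _ = (B.natAbs * s.1.natAbs * t u.1) * (A.natAbs * s'.2.natAbs * t u.2.1) := by
              rw [g2, ← g5]
          _ = _ := by ring
      exact Nat.eq_of_mul_eq_mul_left (by positivity) h6
    have hc1 : Nat.Coprime s.1.natAbs s.2.natAbs := Int.isCoprime_iff_nat_coprime.1 hcop
    have hc2 : Nat.Coprime s'.1.natAbs s'.2.natAbs := Int.isCoprime_iff_nat_coprime.1 hcop'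
    have h7 : s.1.natAbs = s'.1.natAbs := by
      refine Nat.dvd_antisymm ?_ ?_
      · exact hc1.dvd_of_dvd_mul_left (Dvd.intro_left _ h5.symm)
      · exact hc2.dvd_of_dvd_mul_left (Dvd.intro_left _ h5)
    have h8 : s.2.natAbs = s'.2.natAbs := by
      rw [← h7] at h5
      exact Nat.eq_of_mul_eq_mul_right hk h5
    have sgn : ∀ a b : ℤ, a ≠ 0 → b ≠ 0 → a.natAbs = b.natAbs → (0 < a ↔ 0 < b) → a = b := by
      intro a b ha hb hab hs
      rcases Int.natAbs_eq_natAbs_iff.1 hab with h | h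
      · exact h
      · exfalso
        by_cases hp : 0 < a
        · have := hs.1 hp; omega
        · have : ¬ 0 < b := fun h' => hp (hs.2 h')
          omega
    exact Prod.ext (sgn _ _ k0 k0' h7 (g3.trans g6.symm)) (sgn _ _ x0 x0' h8 (g4.trans g7.symm))
  refine (Finset.sum_le_sum h4).trans ?_
  simp [Fintype.card_prod]

lemma lr_le_H {A : ℤ} {H : ℕ} (hA : A ≠ 0) (hAH : |A| ≤ H) : lr A.natAbs ≤ Real.log H := by
  refine (lr_le_log (Int.natAbs_ne_zero.2 hA)).trans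
    (Real.log_le_log (by exact_mod_cast Int.natAbs_pos.2 hA) ?_)
  rw [← Int.natCast_natAbs] at hAH
  exact_mod_cast hAH

lemma lr_mul' {A x : ℤ} (hA : A ≠ 0) (hx : x ≠ 0) :
    lr (A * x).natAbs ≤ lr A.natAbs + Real.log (rad x) := by
  rw [Int.natAbs_mul, ← lr_eq]
  exact lr_mul _ _ (Int.natAbs_ne_zero.2 hA) (Int.natAbs_ne_zero.2 hx)

/-- the number of the coprime pairs with a relation of small radical -/
lemma count_pairs (ε : ℝ) (hε : 0 < ε) (hε1 : ε ≤ 1) : ∃ D : ℝ, 0 < D ∧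
    ∀ (H : ℕ) (Z : ℝ), 1 ≤ H → 1 ≤ Z →
    ∀ F : Finset (ℤ × ℤ), (∀ s ∈ F, s.1 ≠ 0 ∧ s.2 ≠ 0 ∧ IsCoprime s.1 s.2 ∧
      ∃ A B E y : ℤ, A ≠ 0 ∧ B ≠ 0 ∧ E ≠ 0 ∧ |A| ≤ H ∧ |B| ≤ H ∧
      |E| ≤ H ∧ y ≠ 0 ∧ A * s.2 + B * s.1 = E * y ∧ (rad s.1 : ℝ) * rad s.2 * rad y ≤ Z) →
    (F.card : ℝ) ≤ D * (H : ℝ) ^ 8 * Z ^ (2 / 3 + ε) := by
  classical
  obtain ⟨D, hD, hmain⟩ := Pool.Agent.TH867.SB.ref_all ε hε
  refine ⟨27 * 36 * D, by positivity, ?_⟩
  intro H Z hH hZ F hF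
  have hH1 : (1 : ℝ) ≤ H := by exact_mod_cast hH
  have hH0 : (0 : ℝ) < H := by linarith
  have hZ0 : (0 : ℝ) < Z := by linarith
  set X : ℝ := (H : ℝ) ^ 3 * Z with hX
  have hX1 : 1 ≤ X := by
    have : (1 : ℝ) ≤ (H : ℝ) ^ 3 := one_le_pow₀ hH1
    nlinarith
  have hX0 : 0 < X := by linarith
  set I : Finset ℤ := Finset.Icc (-(H : ℤ)) H with hI
  set W : Finset (ℤ × ℤ × ℤ) := (I ×ˢ I ×ˢ I).filter fun s => s.1 ≠ 0 ∧ s.2.1 ≠ 0 ∧ s.2.2 ≠ 0
    with hW
  set Fw : ℤ × ℤ × ℤ → Finset (ℤ × ℤ) := fun w => F.filter fun s => ∃ y : ℤ, y ≠ 0 ∧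
      w.1 * s.2 + w.2.1 * s.1 = w.2.2 * y ∧ (rad s.1 : ℝ) * rad s.2 * rad y ≤ Z with hFw
  have hsub : F ⊆ W.biUnion Fw := by
    intro x hx
    obtain ⟨h0, h0', hc, A, B, E, y, hA, hB, hE, hAH, hBH, hEH, hy, hrel, hrad⟩ := hF x hx
    rw [Finset.mem_biUnion]
    refine ⟨(A, B, E), ?_, Finset.mem_filter.2 ⟨hx, y, hy, hrel, hrad⟩⟩
    rw [hW, Finset.mem_filter]
    refine ⟨?_, hA, hB, hE⟩
    simp only [Finset.mem_product, hI, Finset.mem_Icc]
    rw [abs_le] at hAH hBH hEH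
    exact ⟨hAH, hBH, hEH⟩
  have hWcard : (W.card : ℝ) ≤ 27 * (H : ℝ) ^ 3 := by
    have h1 : W.card ≤ (I ×ˢ I ×ˢ I).card := Finset.card_filter_le _ _
    have h2 : I.card = 2 * H + 1 := by
      rw [hI, Int.card_Icc]; omega
    rw [Finset.card_product, Finset.card_product, h2] at h1
    have h3 : (W.card : ℝ) ≤ (2 * H + 1) * ((2 * H + 1) * (2 * H + 1)) := by exact_mod_cast h1
    have h4 : (2 * (H : ℝ) + 1) ≤ 3 * H := by linarith
    have h5 : (2 * (H : ℝ) + 1) * ((2 * H + 1) * (2 * H + 1)) ≤ (3 * H) * ((3 * H) * (3 * H)) := by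
      gcongr
    calc (W.card : ℝ) ≤ _ := h3
      _ ≤ _ := h5
      _ = _ := by ring
  set V : ℝ := 36 * (D * X ^ (2 / 3 + ε)) with hV
  have hV0 : 0 ≤ V := by positivity
  have hone : ∀ w ∈ W, ((Fw w).card : ℝ) ≤ V := by
    intro w hw
    rw [hW, Finset.mem_filter] at hw
    simp only [Finset.mem_product, hI, Finset.mem_Icc] at hw
    obtain ⟨⟨g1, g2, g3⟩, g4, g5, g6⟩ := hw
    have key : ∀ s ∈ Fw w, ∃ t : Fin 3 → ℕ, Tr t ∧ rr t 0 + rr t 1 + rr t 2 ≤ Real.log X ∧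
        ∃ i j : Fin 3, t j ≠ 0 ∧ (w.1 * s.2).natAbs * t j = (w.2.1 * s.1).natAbs * t i := by
      intro s hs
      obtain ⟨hs1, y, hy, hrel, hrad⟩ := Finset.mem_filter.1 hs
      obtain ⟨h0, h0', -, -⟩ := hF s hs1
      obtain ⟨t, ht, h1, -, h3⟩ := triple_of (mul_ne_zero g4 h0') (mul_ne_zero g5 h0)
        (mul_ne_zero g6 hy) hrel
      refine ⟨t, ht, h1.trans ?_, h3⟩
      have e1 := lr_mul' g4 h0'
      have e2 := lr_mul' g5 h0
      have e3 := lr_mul' g6 hy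
      have e4 := lr_le_H (H := H) g4 (abs_le.2 g1)
      have e5 := lr_le_H (H := H) g5 (abs_le.2 g2)
      have e6 := lr_le_H (H := H) g6 (abs_le.2 g3)
      have r1 := one_le_rad s.1
      have r2 := one_le_rad s.2
      have r3 := one_le_rad y
      have e7 : Real.log (rad s.1) + Real.log (rad s.2) + Real.log (rad y) ≤ Real.log Z := by
        rw [← Real.log_mul (by linarith) (by linarith), ← Real.log_mul (by positivity) (by linarith)]
        exact Real.log_le_log (by positivity) hrad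
      rw [hX, Real.log_mul (by positivity) (by positivity), Real.log_pow]
      push_cast
      linarith
    choose! t ht using key
    have hfib : (Fw w).card ≤ 36 * ((Fw w).image t).card := by
      refine Finset.card_le_mul_card_image _ _ ?_
      intro τ _
      refine fibre2 τ w.1 w.2.1 g4 g5 _ ?_
      intro s hs
      obtain ⟨h1, h2⟩ := Finset.mem_filter.1 hs
      obtain ⟨-, -, i, j, h3, h4⟩ := ht s h1
      rw [h2] at h3 h4
      obtain ⟨k1, k2, k3, -⟩ := hF s (Finset.mem_filter.1 h1).1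
      exact ⟨k1, k2, k3, i, j, h3, h4⟩
    have hXA : (1 : ℝ) ≤ X ^ (1 / 3 : ℝ) := Real.one_le_rpow hX1 (by norm_num)
    have h5 := hmain X (X ^ (1 / 3 : ℝ)) hX1 hXA ((Fw w).image t) (by
      intro τ hτ
      obtain ⟨x, hx, rfl⟩ := Finset.mem_image.1 hτ
      obtain ⟨k1, k2, -⟩ := ht x hx
      refine ⟨k1, k2, ?_⟩
      obtain ⟨i, hi⟩ := Pool.Agent.TH867.SB.min_of (t x)
      refine ⟨i, hi.trans ?_⟩
      rw [Real.log_rpow hX0]
      linarith)
    have h6 : (((Fw w).card : ℕ) : ℝ) ≤ 36 * (((Fw w).image t).card : ℝ) := by exact_mod_cast hfib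
    refine h6.trans ?_
    rw [hV]
    refine mul_le_mul_of_nonneg_left (h5.trans_eq ?_) (by norm_num)
    have e1 : (X ^ (1 / 3 : ℝ) * X) ^ (1 / 2 : ℝ) = X ^ (2 / 3 : ℝ) := by
      have : X ^ (1 / 3 : ℝ) * X = X ^ (4 / 3 : ℝ) := by
        rw [← Real.rpow_add_one hX0.ne']
        norm_num
      rw [this, ← Real.rpow_mul hX0.le]
      norm_num
    rw [e1, mul_assoc, ← Real.rpow_add hX0]
    ring_nf
  have h1 : (F.card : ℝ) ≤ W.card * V := by
    have h2 := (Finset.card_le_card hsub).trans Finset.card_biUnion_le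
    have h3 : (F.card : ℝ) ≤ ∑ s ∈ W, ((Fw s).card : ℝ) := by exact_mod_cast h2
    refine h3.trans ?_
    rw [← nsmul_eq_mul]
    exact Finset.sum_le_card_nsmul _ _ _ hone
  have h2 : X ^ (2 / 3 + ε) ≤ (H : ℝ) ^ 5 * Z ^ (2 / 3 + ε) := by
    rw [hX, Real.mul_rpow (by positivity) hZ0.le]
    refine mul_le_mul_of_nonneg_right ?_ (by positivity)
    rw [← Real.rpow_natCast (H : ℝ) 3, ← Real.rpow_mul hH0.le, ← Real.rpow_natCast (H : ℝ) 5]
    refine Real.rpow_le_rpow_of_exponent_le hH1 ?_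
    push_cast
    linarith
  calc (F.card : ℝ) ≤ W.card * V := h1
    _ ≤ (27 * (H : ℝ) ^ 3) * (36 * (D * ((H : ℝ) ^ 5 * Z ^ (2 / 3 + ε)))) := by
        rw [hV]; gcongr
    _ = _ := by ring

open Classical in
/-- the combinatorial part -/
theorem rare_of {α : Type*} [DecidableEq α] (f : α → α) (G : Set α) (N : ℕ) (Bad : Finset α)
    (hGG : Set.MapsTo f G G) (hinj : Set.InjOn f G) (hN : 2 ≤ N) (hBG : ∀ b ∈ Bad, b ∈ G)
    (hFin : ∀ J : ℕ, ∃ F : Finset α, F.card ≤ N + J ∧ ∀ b ∈ Bad, ∀ j ≤ J, f^[j] b ∈ F)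
    (c : ℝ) (hc0 : 0 < c) (hc1 : c ≤ 1) (V : ℝ)
    (hV : ((Bad.filter fun b => ∃ j, 1 ≤ j ∧ j ≤ ⌊c * Real.log N⌋₊ ∧ f^[j] b ∈ Bad).card : ℝ) ≤ V) :
    (Bad.card : ℝ) ≤ V + 2 / c * (N / Real.log N) := by
  have hN1 : (1 : ℝ) < N := by
    have : 1 < N := by omega
    exact_mod_cast this
  have hN0 : (0 : ℝ) < N := by linarith
  have hlogN : 0 < Real.log N := Real.log_pos hN1
  set J : ℕ := ⌊c * Real.log N⌋₊ with hJ
  have hJ1 : (J : ℝ) ≤ c * Real.log N := Nat.floor_le (by positivity)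
  have hJ2 : c * Real.log N < J + 1 := Nat.lt_floor_add_one _
  set B1 : Finset α := Bad.filter fun b => ∃ j, 1 ≤ j ∧ j ≤ J ∧ f^[j] b ∈ Bad with hB1
  set B2 : Finset α := Bad.filter fun b => ¬ ∃ j, 1 ≤ j ∧ j ≤ J ∧ f^[j] b ∈ Bad with hB2
  have hsplit : Bad.card = B1.card + B2.card := by
    rw [hB1, hB2, Finset.card_filter_add_card_filter_not]
  have h2 : (B2.card : ℝ) ≤ 2 / c * (N / Real.log N) := by
    obtain ⟨F, hF1, hF2⟩ := hFin J
    have h3 := seg f G hGG hinj B2 F J (fun b hb => hBG b (Finset.mem_filter.1 hb).1)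
      (fun b hb => hF2 b (Finset.mem_filter.1 hb).1) (fun b hb j hj1 hj2 hj3 =>
        (Finset.mem_filter.1 hb).2 ⟨j, hj1, hj2, (Finset.mem_filter.1 hj3).1⟩)
    have h4 : (B2.card : ℝ) * (J + 1) ≤ N + J := by exact_mod_cast h3.trans hF1
    have h5 : (J : ℝ) ≤ N := by
      have := Real.log_le_self hN0.le
      nlinarith
    have h6 : (B2.card : ℝ) * (c * Real.log N) ≤ 2 * N := by
      have : (B2.card : ℝ) * (c * Real.log N) ≤ (B2.card : ℝ) * (J + 1) :=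
        mul_le_mul_of_nonneg_left hJ2.le (Nat.cast_nonneg _)
      linarith
    rw [div_mul_div_comm, le_div_iff₀ (by positivity)]
    exact h6
  rw [hsplit]
  push_cast
  linarith

/-- `N ^ (1 - δ)` is smaller than `N / log N` -/
lemma pow_le_div (δ : ℝ) (hδ : 0 < δ) {N : ℝ} (hN : 1 < N) :
    N ^ (1 - δ) ≤ 1 / δ * (N / Real.log N) := by
  have hN0 : 0 < N := by linarith
  have hlogN : 0 < Real.log N := Real.log_pos hN
  have h6 : Real.log N ≤ 1 / δ * N ^ δ := by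
    have e1 : Real.log (N ^ δ) ≤ N ^ δ := Real.log_le_self (by positivity)
    rw [Real.log_rpow hN0] at e1
    calc Real.log N = 1 / δ * (δ * Real.log N) := by field_simp
      _ ≤ _ := by gcongr
  rw [mul_div_assoc', le_div_iff₀ hlogN]
  calc N ^ (1 - δ) * Real.log N ≤ N ^ (1 - δ) * (1 / δ * N ^ δ) := by gcongr
    _ = 1 / δ * (N ^ (1 - δ) * N ^ δ) := by ring
    _ = 1 / δ * N := by
        rw [← Real.rpow_add hN0, sub_add_cancel, Real.rpow_one]

/-- a power with a short exponent -/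
lemma pow_floor_le (L : ℕ) (hL : 2 ≤ L) (δ : ℝ) (hδ : 0 < δ) (M : ℕ) {N : ℝ} (hN : 1 < N) :
    (((L ^ ⌊δ / (M * Real.log L) * Real.log N⌋₊ : ℕ) : ℝ)) ^ M ≤ N ^ δ := by
  have hN0 : 0 < N := by linarith
  have hlogN : 0 < Real.log N := Real.log_pos hN
  have hL1 : (1 : ℝ) < L := by
    have : 1 < L := by omega
    exact_mod_cast this
  have hlogL : 0 < Real.log L := Real.log_pos hL1
  rcases Nat.eq_zero_or_pos M with rfl | hM
  · rw [pow_zero]
    exact Real.one_le_rpow hN.le hδ.le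
  have hM0 : (0 : ℝ) < M := by exact_mod_cast hM
  set J : ℕ := ⌊δ / (M * Real.log L) * Real.log N⌋₊ with hJ
  have hJ1 : (J : ℝ) ≤ δ / (M * Real.log L) * Real.log N := Nat.floor_le (by positivity)
  have e1 : (((L ^ J : ℕ) : ℝ)) ^ M = Real.exp (M * (J * Real.log L)) := by
    push_cast
    rw [← pow_mul, ← Real.exp_log (by positivity : (0 : ℝ) < (L : ℝ) ^ (J * M)), Real.log_pow]
    congr 1
    push_cast
    ring
  rw [e1, Real.rpow_def_of_pos hN0]
  refine Real.exp_le_exp.2 ?_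
  have e2 : J * Real.log L ≤ δ / (M * Real.log L) * Real.log N * Real.log L :=
    mul_le_mul_of_nonneg_right hJ1 hlogL.le
  have e3 : M * (δ / (M * Real.log L) * Real.log N * Real.log L) = Real.log N * δ := by
    field_simp
  calc M * (J * Real.log L) ≤ M * (δ / (M * Real.log L) * Real.log N * Real.log L) := by gcongr
    _ = _ := e3

end Pool.Agent.X61.RT
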