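import Mathlib
import Pool.Agent.X61.RT.Pairs
import Pool.Agent.TH498.HF.TM2

/-!
Relations between integers composed of few primes.
-/

set_option autoImplicit false

namespace Pool.Agent.X61.RT

open Finset Polynomial Pool.Agent.TH498.HF Pool.Agent.W4.VC

/-- the polynomial `X^2 + X` -/
noncomputable def ff : ℤ[X] := X ^ 2 + X

lemma ff_hom (a b : ℤ) : hom ff 3 a b = a * b * (a + b) := by
  unfold hom ff
  rw [Finset.sum_range_succ, Finset.sum_range_succ, Finset.sum_range_succ, Finset.sum_range_succ,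
    Finset.sum_range_zero]
  simp [Polynomial.coeff_X, Polynomial.coeff_X_pow]
  ring

lemma ff_sqf : Sqf ff 3 := by
  have hdeg : ff.natDegree = 2 := by
    unfold ff
    compute_degree!
  refine ⟨?_, by omega, by omega⟩
  refine Polynomial.Separable.squarefree ?_
  have h1 : ff.map (Int.castRingHom ℚ) = X ^ 2 + X := by
    unfold ff
    simp
  rw [h1]
  refine ⟨-4, 2 * X + 1, ?_⟩
  rw [Polynomial.derivative_add, Polynomial.derivative_X_pow, Polynomial.derivative_X]
  have h2 : (C (2 : ℚ) : ℚ[X]) = 2 := map_ofNat C 2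
  simp
  rw [h2]
  ring

lemma card_primes_le {n H : ℕ} (hn : n ≠ 0) (h : n ≤ H) : n.primeFactors.card ≤ Nat.log 2 H := by
  have h1 : 2 ^ n.primeFactors.card ≤ n := by
    calc 2 ^ n.primeFactors.card = ∏ _p ∈ n.primeFactors, 2 := by rw [Finset.prod_const]
      _ ≤ ∏ p ∈ n.primeFactors, p :=
        Finset.prod_le_prod' fun p hp => (Nat.prime_of_mem_primeFactors hp).two_le
      _ ≤ n := Nat.le_of_dvd (Nat.pos_of_ne_zero hn) (Nat.prod_primeFactors_dvd n)
  exact Nat.le_log_of_pow_le (by norm_num) (h1.trans h)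

/-- relations between integers composed of given primes -/
lemma count_units : ∃ B0 : ℕ, 2 ≤ B0 ∧ ∀ (H : ℕ) (k : ℤ) (P : Finset ℕ), 1 ≤ H → k ≠ 0 →
    ∀ F : Finset ℤ, (∀ x ∈ F, x ≠ 0 ∧ (∀ p : ℕ, p.Prime → p ∣ x.natAbs → p ∈ P) ∧
      ∃ A B E y : ℤ, A ≠ 0 ∧ B ≠ 0 ∧ E ≠ 0 ∧ |A| ≤ H ∧ |B| ≤ H ∧ |E| ≤ H ∧ y ≠ 0 ∧
        (∀ p : ℕ, p.Prime → p ∣ y.natAbs → p ∈ P) ∧ A * x + B * k = E * y) →
    (F.card : ℝ) ≤ 27 * (H : ℝ) ^ 3 *
      (B0 : ℝ) ^ (P.card + k.natAbs.primeFactors.card + 3 * Nat.log 2 H + 1) := by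
  classical
  obtain ⟨B, hB1, hTM⟩ := TM ff 3 ff_sqf (by norm_num) 1 (by norm_num)
  refine ⟨B + 1, by omega, ?_⟩
  intro H k P hH hk F hF
  have hH1 : (1 : ℝ) ≤ H := by exact_mod_cast hH
  set I : Finset ℤ := Finset.Icc (-(H : ℤ)) H with hI
  set W : Finset (ℤ × ℤ × ℤ) := (I ×ˢ I ×ˢ I).filter fun s => s.1 ≠ 0 ∧ s.2.1 ≠ 0 ∧ s.2.2 ≠ 0
    with hW
  set Fw : ℤ × ℤ × ℤ → Finset ℤ := fun w => F.filter fun x => ∃ y : ℤ, y ≠ 0 ∧
      (∀ p : ℕ, p.Prime → p ∣ y.natAbs → p ∈ P) ∧ w.1 * x + w.2.1 * k = w.2.2 * y with hFw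
  have hsub : F ⊆ W.biUnion Fw := by
    intro x hx
    obtain ⟨h0, hp, A, B, E, y, hA, hB, hE, hAH, hBH, hEH, hy, hyp, hrel⟩ := hF x hx
    rw [Finset.mem_biUnion]
    refine ⟨(A, B, E), ?_, Finset.mem_filter.2 ⟨hx, y, hy, hyp, hrel⟩⟩
    rw [hW, Finset.mem_filter]
    refine ⟨?_, hA, hB, hE⟩
    simp only [Finset.mem_product, hI, Finset.mem_Icc]
    rw [abs_le] at hAH hBH hEH
    exact ⟨hAH, hBH, hEH⟩
  have hWcard : (W.card : ℝ) ≤ 27 * (H : ℝ) ^ 3 := by
    have h1 : W.card ≤ (I ×ˢ I ×ˢ I).card := Finset.card_filter_le _ _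
    have h2 : I.card = 2 * H + 1 := by
      rw [hI, Int.card_Icc]; omega
    rw [Finset.card_product, Finset.card_product, h2] at h1
    have h3 : (W.card : ℝ) ≤ (2 * H + 1) * ((2 * H + 1) * (2 * H + 1)) := by exact_mod_cast h1
    have h4 : (2 * (H : ℝ) + 1) ≤ 3 * H := by linarith
    have h5 : (2 * (H : ℝ) + 1) * ((2 * H + 1) * (2 * H + 1)) ≤ (3 * H) * ((3 * H) * (3 * H)) := by
      gcongr
    calc (W.card : ℝ) ≤ _ := h3
      _ ≤ _ := h5
      _ = _ := by ring
  set e : ℕ := P.card + k.natAbs.primeFactors.card + 3 * Nat.log 2 H + 1 with he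
  have hone : ∀ w ∈ W, (Fw w).card ≤ (B + 1) ^ e := by
    intro w hw
    rw [hW, Finset.mem_filter] at hw
    simp only [Finset.mem_product, hI, Finset.mem_Icc] at hw
    obtain ⟨⟨g1, g2, g3⟩, g4, g5, g6⟩ := hw
    set P' : Finset ℕ := P ∪ k.natAbs.primeFactors ∪ (w.1.natAbs.primeFactors ∪
      (w.2.1.natAbs.primeFactors ∪ w.2.2.natAbs.primeFactors)) with hP'
    have hcard : P'.card + 1 ≤ e := by
      have c1 := card_primes_le (H := H) (Int.natAbs_ne_zero.2 g4) (by omega)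
      have c2 := card_primes_le (H := H) (Int.natAbs_ne_zero.2 g5) (by omega)
      have c3 := card_primes_le (H := H) (Int.natAbs_ne_zero.2 g6) (by omega)
      have d1 := Finset.card_union_le (P ∪ k.natAbs.primeFactors) (w.1.natAbs.primeFactors ∪
        (w.2.1.natAbs.primeFactors ∪ w.2.2.natAbs.primeFactors))
      have d2 := Finset.card_union_le P k.natAbs.primeFactors
      have d3 := Finset.card_union_le w.1.natAbs.primeFactors
        (w.2.1.natAbs.primeFactors ∪ w.2.2.natAbs.primeFactors)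
      have d4 := Finset.card_union_le w.2.1.natAbs.primeFactors w.2.2.natAbs.primeFactors
      rw [← hP'] at d1
      omega
    -- the coprime pair
    let φ : ℤ → ℤ × ℤ := fun x =>
      ((w.1 * x) / (Int.gcd (w.1 * x) (w.2.1 * k) : ℤ),
        (w.2.1 * k) / (Int.gcd (w.1 * x) (w.2.1 * k) : ℤ))
    have hφ : ∀ x ∈ Fw w, ∃ g : ℤ, g ≠ 0 ∧ w.1 * x = g * (φ x).1 ∧ w.2.1 * k = g * (φ x).2 := by
      intro x hx
      have hx0 := (hF x (Finset.mem_filter.1 hx).1).1
      refine ⟨(Int.gcd (w.1 * x) (w.2.1 * k) : ℤ), ?_, ?_, ?_⟩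
      · intro h
        have h' : Int.gcd (w.1 * x) (w.2.1 * k) = 0 := by exact_mod_cast h
        rw [Int.gcd_eq_zero_iff] at h'
        exact (mul_ne_zero g4 hx0) h'.1
      · exact (Int.mul_ediv_cancel' (Int.gcd_dvd_left ..)).symm
      · exact (Int.mul_ediv_cancel' (Int.gcd_dvd_right ..)).symm
    have hinj : Set.InjOn φ (Fw w : Set ℤ) := by
      intro x hx y hy hxy
      obtain ⟨g, hg0, hg1, hg2⟩ := hφ x hx
      obtain ⟨g', hg0', hg1', hg2'⟩ := hφ y hy
      rw [hxy] at hg1 hg2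
      have hne : (φ y).2 ≠ 0 := by
        intro h
        rw [h, mul_zero] at hg2'
        exact (mul_ne_zero g5 hk) hg2'
      have e1 : g = g' := mul_right_cancel₀ hne (hg2.symm.trans hg2')
      rw [e1] at hg1
      exact mul_left_cancel₀ g4 (hg1.trans hg1'.symm)
    rw [← Finset.card_image_of_injOn hinj]
    have h1 := hTM P' ((Fw w).image φ) (by
      intro s hs
      obtain ⟨x, hx, rfl⟩ := Finset.mem_image.1 hs
      obtain ⟨g, hg0, hg1, hg2⟩ := hφ x hx
      obtain ⟨hxF, y, hy0, hyp, hrel⟩ := Finset.mem_filter.1 hx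
      obtain ⟨hx0, hxp, -⟩ := hF x hxF
      have hcop : IsCoprime (φ x).1 (φ x).2 := by
        have hg' : Int.gcd (w.1 * x) (w.2.1 * k) ≠ 0 := by
          intro h'
          rw [Int.gcd_eq_zero_iff] at h'
          exact (mul_ne_zero g4 hx0) h'.1
        rw [Int.isCoprime_iff_gcd_eq_one]
        exact Int.gcd_div_gcd_div_gcd (Nat.pos_of_ne_zero hg')
      set a := (φ x).1 with ha
      set b := (φ x).2 with hb
      have ha0 : a ≠ 0 := by
        intro h
        rw [h, mul_zero] at hg1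
        exact (mul_ne_zero g4 hx0) hg1
      have hb0 : b ≠ 0 := by
        intro h
        rw [h, mul_zero] at hg2
        exact (mul_ne_zero g5 hk) hg2
      have hab : g * (a + b) = w.2.2 * y := by
        rw [mul_add, ← hg1, ← hg2, hrel]
      have hab0 : a + b ≠ 0 := by
        intro h
        rw [h, mul_zero] at hab
        exact (mul_ne_zero g6 hy0) hab.symm
      rw [ff_hom]
      refine ⟨hcop, mul_ne_zero (mul_ne_zero ha0 hb0) hab0, ?_⟩
      intro p hp hpd
      left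
      rw [Int.natAbs_mul, Int.natAbs_mul] at hpd
      rw [hP']
      simp only [Finset.mem_union, Nat.mem_primeFactors]
      rcases (Nat.Prime.dvd_mul hp).1 hpd with h' | h'
      · rcases (Nat.Prime.dvd_mul hp).1 h' with h'' | h''
        · have h3 : p ∣ (w.1 * x).natAbs := by
            rw [hg1, Int.natAbs_mul]; exact Dvd.dvd.mul_left h'' _
          rw [Int.natAbs_mul] at h3
          rcases (Nat.Prime.dvd_mul hp).1 h3 with h4 | h4
          · right; left; exact ⟨hp, h4, Int.natAbs_ne_zero.2 g4⟩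
          · left; left; exact hxp p hp h4
        · have h3 : p ∣ (w.2.1 * k).natAbs := by
            rw [hg2, Int.natAbs_mul]; exact Dvd.dvd.mul_left h'' _
          rw [Int.natAbs_mul] at h3
          rcases (Nat.Prime.dvd_mul hp).1 h3 with h4 | h4
          · right; right; left; exact ⟨hp, h4, Int.natAbs_ne_zero.2 g5⟩
          · left; right; exact ⟨hp, h4, Int.natAbs_ne_zero.2 hk⟩
      · have h3 : p ∣ (w.2.2 * y).natAbs := by
          rw [← hab, Int.natAbs_mul]; exact Dvd.dvd.mul_left h' _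
        rw [Int.natAbs_mul] at h3
        rcases (Nat.Prime.dvd_mul hp).1 h3 with h4 | h4
        · right; right; right; exact ⟨hp, h4, Int.natAbs_ne_zero.2 g6⟩
        · left; left; exact hyp p hp h4)
    calc ((Fw w).image φ).card ≤ B ^ (P'.card + 1) := h1
      _ ≤ (B + 1) ^ (P'.card + 1) := Nat.pow_le_pow_left (by omega) _
      _ ≤ (B + 1) ^ e := Nat.pow_le_pow_right (by omega) hcard
  have h1 : (F.card : ℝ) ≤ W.card * ((B + 1 : ℕ) : ℝ) ^ e := by
    have h2 := (Finset.card_le_card hsub).trans Finset.card_biUnion_le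
    have h3 : (F.card : ℝ) ≤ ∑ s ∈ W, ((Fw s).card : ℝ) := by exact_mod_cast h2
    refine h3.trans ?_
    rw [← nsmul_eq_mul]
    refine Finset.sum_le_card_nsmul _ _ _ fun w hw => ?_
    exact_mod_cast hone w hw
  refine h1.trans ?_
  gcongr

end Pool.Agent.X61.RT
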