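import Mathlib
import Pool.Agent.TH498.HF.TM1
import Pool.Agent.TH876.Light
import Pool.Agent.X61.RT.Units

/-!
Relations between integers whose part outside a finite set of primes is small.
-/

set_option autoImplicit false

namespace Pool.Agent.X61.RT

open NumberField IsDedekindDomain Finset Pool.Agent.H691R3 Pool.Agent.TH876.Loc
open Pool.Agent.TH498.HF

/-- the part of `n` prime to the primes in `P` -/
def free (P : Finset ℕ) (n : ℕ) : ℕ := ∏ p ∈ n.primeFactors \ P, p ^ n.factorization p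

/-- the part composed of the primes in `P` -/
def part (P : Finset ℕ) (n : ℕ) : ℕ := ∏ p ∈ n.primeFactors ∩ P, p ^ n.factorization p

lemma part_mul_free (P : Finset ℕ) {n : ℕ} (hn : n ≠ 0) : part P n * free P n = n := by
  unfold part free
  rw [Finset.prod_inter_mul_prod_sdiff]
  exact Nat.prod_factorization_pow_eq_self hn

lemma free_pos (P : Finset ℕ) (n : ℕ) : 0 < free P n :=
  Finset.prod_pos fun _ hp => pow_pos (Nat.prime_of_mem_primeFactors (Finset.mem_sdiff.1 hp).1).pos _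

lemma part_prime (P : Finset ℕ) {n p : ℕ} (hp : p.Prime) (h : p ∣ part P n) : p ∈ P := by
  unfold part at h
  rw [Prime.dvd_finsetProd_iff hp.prime] at h
  obtain ⟨q, hq, hpq⟩ := h
  rw [Finset.mem_inter] at hq
  have h1 := hp.dvd_of_dvd_pow hpq
  rw [Nat.prime_dvd_prime_iff_eq hp (Nat.prime_of_mem_primeFactors hq.1)] at h1
  rw [h1]
  exact hq.2

lemma sumw (g : ℝ) : ∑ w : InfinitePlace ℚ, (w.mult : ℝ) * g = g := by
  rw [← Finset.sum_mul]
  have h1 : ∑ w : InfinitePlace ℚ, (w.mult : ℝ) = 1 := by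
    have h2 := InfinitePlace.sum_mult_eq (K := ℚ)
    have h3 : ((∑ w : InfinitePlace ℚ, w.mult : ℕ) : ℝ) = 1 := by
      rw [h2]
      simp
    rw [← h3]
    push_cast
    rfl
  rw [h1, one_mul]

lemma wq (w : InfinitePlace ℚ) (x : ℚ) : w.1 x = |(x : ℝ)| := by
  have h1 : w x = ‖w.embedding x‖ := (InfinitePlace.norm_embedding_eq w x).symm
  have h2 : w.embedding x = ((x : ℝ) : ℂ) := by
    rw [eq_ratCast w.embedding x]
    push_cast
    rfl
  rw [h2, Complex.norm_real, Real.norm_eq_abs] at h1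
  exact h1

/-- the sum over the primes outside `P` -/
lemma sum_free (P : Finset ℕ) {n : ℕ} (hn : n ≠ 0) {V : Finset (Pr ℚ)}
    (hV : ∀ v, v ∉ V → fv v (n : ℚ) = 1) :
    ∑ v ∈ V.filter (fun v => pv v ∉ P), -Real.log (fv v (n : ℚ)) ≤ Real.log (free P n) := by
  set m : ℕ := free P n with hm
  have hm0 : m ≠ 0 := (free_pos P n).ne'
  have hfac : ∀ v : Pr ℚ, fv v (n : ℚ) = fv v (part P n : ℚ) * fv v (m : ℚ) := by
    intro v
    rw [← (fv v).map_mul]
    congr 1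
    rw [← Nat.cast_mul, part_mul_free P hn]
  have hle : ∀ (v : Pr ℚ) (k : ℕ), fv v (k : ℚ) ≤ 1 := fun v k => fv_natCast_le v k
  have hpos : ∀ v : Pr ℚ, 0 < fv v (m : ℚ) := fun v => (fv v).pos (by exact_mod_cast hm0)
  have h1 : ∀ v ∈ V.filter (fun v => pv v ∉ P), -Real.log (fv v (n : ℚ)) =
      -Real.log (fv v (m : ℚ)) := by
    intro v hv
    have hv2 := (Finset.mem_filter.1 hv).2
    have h2 : fv v ((part P n : ℤ) : ℚ) = 1 := by
      apply fv_int_eq_one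
      intro h
      rw [Int.natAbs_natCast] at h
      exact hv2 (part_prime P (pv_prime v) h)
    rw [Int.cast_natCast] at h2
    rw [hfac v, h2, one_mul]
  rw [Finset.sum_congr rfl h1]
  have h3 : ∑ v ∈ V.filter (fun v => pv v ∉ P), -Real.log (fv v (m : ℚ)) ≤
      ∑ v ∈ V, -Real.log (fv v (m : ℚ)) := by
    refine Finset.sum_le_sum_of_subset_of_nonneg (Finset.filter_subset _ _) ?_
    intro v _ _
    have := Real.log_nonpos (hpos v).le (hle v m)
    linarith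
  refine h3.trans (le_of_eq ?_)
  have h4 := sum_lg (K := ℚ) (z := (m : ℚ)) (by exact_mod_cast hm0) (V := V) (by
    intro v hv
    have h5 := hV v hv
    rw [hfac v] at h5
    have h6 := hle v (part P n)
    have h7 := hle v m
    have h8 := hpos v
    have h9 : 0 ≤ fv v (part P n : ℚ) := (fv v).nonneg _
    nlinarith)
  rw [sum_Spl] at h4
  have h5 : ∑ w : InfinitePlace ℚ, lg (Sum.inl w : Pl ℚ) (m : ℚ) = Real.log m := by
    have h6 : ∀ w : InfinitePlace ℚ, lg (Sum.inl w : Pl ℚ) (m : ℚ) = (w.mult : ℝ) * Real.log m := by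
      intro w
      change (w.mult : ℝ) * Real.log (w.1 (m : ℚ)) = _
      rw [wq]
      push_cast
      rw [abs_of_nonneg (by positivity)]
    rw [Finset.sum_congr rfl fun w _ => h6 w, sumw]
  have h6 : ∑ v ∈ V, lg (Sum.inr v : Pl ℚ) (m : ℚ) = -∑ v ∈ V, -Real.log (fv v (m : ℚ)) := by
    rw [Finset.sum_neg_distrib, neg_neg]
    refine Finset.sum_congr rfl fun v _ => ?_
    change 1 * Real.log (fv v (m : ℚ)) = _
    rw [one_mul]
  rw [h5, h6] at h4
  linarith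

section pts

variable {a b : ℤ} (hc : IsCoprime a b) (ha : a ≠ 0) (hb : b ≠ 0) (hab : a + b ≠ 0)

include ha hb hab in
lemma pt_q : Pt ((a : ℚ) / b) := by
  have hb' : (b : ℚ) ≠ 0 := by exact_mod_cast hb
  have ha' : (a : ℚ) ≠ 0 := by exact_mod_cast ha
  refine ⟨div_ne_zero ha' hb', ?_⟩
  have h1 : (a : ℚ) / b + 1 = ((a + b : ℤ) : ℚ) / b := by
    push_cast
    field_simp
  rw [h1]
  exact div_ne_zero (by exact_mod_cast hab) hb'

include hb in
lemma L2_q : L 2 ((a : ℚ) / b) = -(((a + b : ℤ) : ℚ) / b) := by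
  have hb' : (b : ℚ) ≠ 0 := by exact_mod_cast hb
  change -((a : ℚ) / b) - 1 = _
  push_cast
  field_simp
  ring

include hb in
lemma av_q (v : Pl ℚ) : av v (L 0 ((a : ℚ) / b)) = av v (a : ℚ) / av v (b : ℚ) ∧
    av v (L 1 ((a : ℚ) / b)) = av v (b : ℚ) / av v (b : ℚ) ∧
    av v (L 2 ((a : ℚ) / b)) = av v ((a + b : ℤ) : ℚ) / av v (b : ℚ) := by
  have hb' : (b : ℚ) ≠ 0 := by exact_mod_cast hb
  have hb0 : 0 < av v (b : ℚ) := (av v).pos hb'
  refine ⟨?_, ?_, ?_⟩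
  · change av v ((a : ℚ) / b) = _
    rw [map_div₀]
  · change av v 1 = _
    rw [map_one, div_self hb0.ne']
  · rw [L2_q hb, (av v).map_neg, map_div₀]

include hb in
lemma M_q (v : Pl ℚ) : M v ((a : ℚ) / b) =
    max (av v (a : ℚ)) (max (av v (b : ℚ)) (av v ((a + b : ℤ) : ℚ))) / av v (b : ℚ) := by
  have hb' : (b : ℚ) ≠ 0 := by exact_mod_cast hb
  have hb0 : 0 < av v (b : ℚ) := (av v).pos hb'
  obtain ⟨h1, h2, h3⟩ := av_q (a := a) hb v
  unfold M
  rw [h1, h2, h3, max_div_div_right hb0.le, max_div_div_right hb0.le]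

include hc in
lemma max_fin (v : Pr ℚ) : max (fv v (a : ℚ)) (max (fv v (b : ℚ)) (fv v ((a + b : ℤ) : ℚ))) = 1 := by
  rw [← max_assoc, max_coprime v hc]
  exact max_eq_left (fv_int_le v _)

include hc ha hb hab in
lemma gd_q (v : Pr ℚ) : gd (Sum.inr v : Pl ℚ) ((a : ℚ) / b) =
    -Real.log (fv v (a : ℚ)) + -Real.log (fv v (b : ℚ)) + -Real.log (fv v ((a + b : ℤ) : ℚ)) := by
  have hpos : ∀ k : ℤ, k ≠ 0 → 0 < fv v (k : ℚ) := fun k hk => (fv v).pos (by exact_mod_cast hk)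
  have p1 := hpos a ha
  have p2 := hpos b hb
  have p3 := hpos _ hab
  have hM : mx (Sum.inr v : Pl ℚ) ((a : ℚ) / b) = -Real.log (fv v (b : ℚ)) := by
    unfold mx
    rw [M_q hb]
    change 1 * Real.log (max (fv v (a : ℚ)) (max (fv v (b : ℚ)) (fv v ((a + b : ℤ) : ℚ))) /
      fv v (b : ℚ)) = _
    rw [max_fin hc, one_mul, one_div, Real.log_inv]
  obtain ⟨h1, h2, h3⟩ := av_q (a := a) hb (Sum.inr v : Pl ℚ)
  have e1 : lg (Sum.inr v : Pl ℚ) (L 0 ((a : ℚ) / b)) =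
      Real.log (fv v (a : ℚ)) - Real.log (fv v (b : ℚ)) := by
    unfold lg
    rw [h1]
    change 1 * Real.log (fv v (a : ℚ) / fv v (b : ℚ)) = _
    rw [one_mul, Real.log_div p1.ne' p2.ne']
  have e2 : lg (Sum.inr v : Pl ℚ) (L 1 ((a : ℚ) / b)) = 0 := by
    change lg (Sum.inr v : Pl ℚ) 1 = 0
    exact lg_one _
  have e3 : lg (Sum.inr v : Pl ℚ) (L 2 ((a : ℚ) / b)) =
      Real.log (fv v ((a + b : ℤ) : ℚ)) - Real.log (fv v (b : ℚ)) := by
    unfold lg
    rw [h3]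
    change 1 * Real.log (fv v ((a + b : ℤ) : ℚ) / fv v (b : ℚ)) = _
    rw [one_mul, Real.log_div p3.ne' p2.ne']
  unfold gd
  rw [Fin.sum_univ_three]
  unfold df
  rw [hM, e1, e2, e3]
  ring

include ha hb hab in
lemma sp_q : ∀ v : Pr ℚ, v ∉ sp ((a : ℚ) / b) → fv v (a : ℚ) = fv v (b : ℚ) ∧
    fv v ((a + b : ℤ) : ℚ) = fv v (b : ℚ) := by
  intro v hv
  have hpt := pt_q ha hb hab
  have hb' : (b : ℚ) ≠ 0 := by exact_mod_cast hb
  have hb0 : 0 < fv v (b : ℚ) := (fv v).pos hb'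
  obtain ⟨h1, h2, h3⟩ := av_q (a := a) hb (Sum.inr v : Pl ℚ)
  have g1 := fv_L hpt hv 0
  have g3 := fv_L hpt hv 2
  have k1 : fv v (a : ℚ) / fv v (b : ℚ) = 1 := by
    rw [← g1]; exact h1.symm
  have k3 : fv v ((a + b : ℤ) : ℚ) / fv v (b : ℚ) = 1 := by
    rw [← g3]; exact h3.symm
  exact ⟨(div_eq_one_iff_eq hb0.ne').1 k1, (div_eq_one_iff_eq hb0.ne').1 k3⟩

include hc ha hb hab in
lemma sp_q1 : ∀ v : Pr ℚ, v ∉ sp ((a : ℚ) / b) → fv v (a : ℚ) = 1 ∧ fv v (b : ℚ) = 1 ∧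
    fv v ((a + b : ℤ) : ℚ) = 1 := by
  intro v hv
  obtain ⟨h1, h2⟩ := sp_q ha hb hab v hv
  have h3 := max_coprime v hc (K := ℚ)
  rw [h1, max_self] at h3
  exact ⟨h1.trans h3, h3, h2.trans h3⟩

include hc ha hb hab in
lemma hgt_q : hgt ((a : ℚ) / b) = Real.log (max |(a : ℝ)| (max |(b : ℝ)| |((a + b : ℤ) : ℝ)|)) := by
  have hpt := pt_q ha hb hab
  set V := sp ((a : ℚ) / b) with hV
  have hb' : (b : ℚ) ≠ 0 := by exact_mod_cast hb
  have hbr : 0 < |(b : ℝ)| := abs_pos.2 (by exact_mod_cast hb)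
  rw [← hgt_eq hpt (V := V) subset_rfl, sum_Spl]
  have h1 : ∀ w : InfinitePlace ℚ, mx (Sum.inl w : Pl ℚ) ((a : ℚ) / b) = (w.mult : ℝ) *
      (Real.log (max |(a : ℝ)| (max |(b : ℝ)| |((a + b : ℤ) : ℝ)|)) - Real.log |(b : ℝ)|) := by
    intro w
    unfold mx
    rw [M_q hb]
    change (w.mult : ℝ) * Real.log (max (w.1 (a : ℚ)) (max (w.1 (b : ℚ)) (w.1 ((a + b : ℤ) : ℚ))) /
      w.1 (b : ℚ)) = _
    rw [wq, wq, wq]
    simp only [Rat.cast_intCast]
    rw [Real.log_div _ hbr.ne']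
    exact (lt_of_lt_of_le hbr ((le_max_left _ _).trans (le_max_right _ _))).ne'
  rw [Finset.sum_congr rfl fun w _ => h1 w, sumw]
  have h2 : ∀ v ∈ V, mx (Sum.inr v : Pl ℚ) ((a : ℚ) / b) = -lg (Sum.inr v : Pl ℚ) (b : ℚ) := by
    intro v _
    unfold mx
    rw [M_q hb]
    change 1 * Real.log (max (fv v (a : ℚ)) (max (fv v (b : ℚ)) (fv v ((a + b : ℤ) : ℚ))) /
      fv v (b : ℚ)) = -(1 * Real.log (fv v (b : ℚ)))
    rw [max_fin hc, one_div, Real.log_inv]
    ring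
  rw [Finset.sum_congr rfl h2, Finset.sum_neg_distrib]
  have h3 := sum_lg (K := ℚ) (z := (b : ℚ)) hb' (V := V) fun v hv => (sp_q1 hc ha hb hab v hv).2.1
  rw [sum_Spl] at h3
  have h4 : ∑ w : InfinitePlace ℚ, lg (Sum.inl w : Pl ℚ) (b : ℚ) = Real.log |(b : ℝ)| := by
    have h6 : ∀ w : InfinitePlace ℚ, lg (Sum.inl w : Pl ℚ) (b : ℚ) =
        (w.mult : ℝ) * Real.log |(b : ℝ)| := by
      intro w
      change (w.mult : ℝ) * Real.log (w.1 (b : ℚ)) = _
      rw [wq]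
      simp only [Rat.cast_intCast]
    rw [Finset.sum_congr rfl fun w _ => h6 w, sumw]
  rw [h4] at h3
  linarith

lemma fv_natAbs (v : Pr ℚ) (k : ℤ) : fv v (k : ℚ) = fv v ((k.natAbs : ℕ) : ℚ) := by
  rcases Int.natAbs_eq k with h | h
  · conv_lhs => rw [h]
    rw [Int.cast_natCast]
  · conv_lhs => rw [h]
    rw [Int.cast_neg, Int.cast_natCast, (fv v).map_neg]

include hc ha hb hab in
lemma out_q (P : Finset ℕ) : out (Ab ℚ P) ((a : ℚ) / b) ≤
    Real.log (free P a.natAbs) + Real.log (free P b.natAbs) + Real.log (free P (a + b).natAbs) := by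
  classical
  set V := sp ((a : ℚ) / b) with hV
  unfold out
  rw [← hV]
  have h0 : V \ Ab ℚ P = V.filter (fun v => pv v ∉ P) := by
    ext v
    rw [Finset.mem_sdiff, Finset.mem_filter, mem_Ab]
  rw [h0, Finset.sum_congr rfl fun v _ => gd_q hc ha hb hab v, Finset.sum_add_distrib,
    Finset.sum_add_distrib]
  have key : ∀ k : ℤ, k ≠ 0 → (∀ v : Pr ℚ, v ∉ V → fv v (k : ℚ) = 1) →
      ∑ v ∈ V.filter (fun v => pv v ∉ P), -Real.log (fv v (k : ℚ)) ≤
        Real.log (free P k.natAbs) := by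
    intro k hk hk1
    have h1 := sum_free P (Int.natAbs_ne_zero.2 hk) (V := V) (by
      intro v hv
      rw [← fv_natAbs]
      exact hk1 v hv)
    refine le_trans (le_of_eq ?_) h1
    exact Finset.sum_congr rfl fun v _ => by rw [fv_natAbs]
  exact add_le_add (add_le_add (key a ha fun v hv => (sp_q1 hc ha hb hab v hv).1)
    (key b hb fun v hv => (sp_q1 hc ha hb hab v hv).2.1))
    (key _ hab fun v hv => (sp_q1 hc ha hb hab v hv).2.2)

end pts

/-- **Light relations between integers.** -/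
theorem light_int (κ : ℝ) (hκ : κ < 1 / 2) : ∃ C : ℝ, 1 ≤ C ∧ ∀ (P : Finset ℕ) (s : Finset (ℤ × ℤ)),
    (∀ x ∈ s, IsCoprime x.1 x.2 ∧ x.1 ≠ 0 ∧ x.2 ≠ 0 ∧ x.1 + x.2 ≠ 0 ∧
      Real.log (free P x.1.natAbs) + Real.log (free P x.2.natAbs) +
        Real.log (free P (x.1 + x.2).natAbs) ≤
      κ * Real.log (max |(x.1 : ℝ)| (max |(x.2 : ℝ)| |((x.1 + x.2 : ℤ) : ℝ)|))) →
    (s.card : ℝ) ≤ C ^ (P.card + 1) := by
  classical
  obtain ⟨C, hC1, hC⟩ := light_count 1 κ hκ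
  refine ⟨2 * C, by linarith, ?_⟩
  intro P s hs
  have hfr : Module.finrank ℚ ℚ = 1 := Module.finrank_self ℚ
  have h1 := hC ℚ hfr (Ab ℚ P) (s.image fun x => (x.1 : ℚ) / x.2) (by
    intro y hy
    obtain ⟨x, hx, rfl⟩ := Finset.mem_image.1 hy
    obtain ⟨h1, h2, h3, h4, h5⟩ := hs x hx
    refine ⟨pt_q h2 h3 h4, (out_q h1 h2 h3 h4 P).trans ?_⟩
    rw [hgt_q h1 h2 h3 h4]
    exact h5)
  have hfib : s.card ≤ 2 * (s.image fun x => (x.1 : ℚ) / x.2).card := by
    refine Finset.card_le_mul_card_image s _ ?_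
    intro z hz
    obtain ⟨x, hx, hxz⟩ := Finset.mem_image.1 hz
    have hsub : s.filter (fun y => (y.1 : ℚ) / y.2 = z) ⊆ {x, (-x.1, -x.2)} := by
      intro y hy
      obtain ⟨hy1, hy2⟩ := Finset.mem_filter.1 hy
      obtain ⟨a1, a2, a3, -, -⟩ := hs x hx
      obtain ⟨b1, b2, b3, -, -⟩ := hs y hy1
      have e1 : (x.1 : ℚ) * y.2 = y.1 * x.2 := by
        have hx2 : (x.2 : ℚ) ≠ 0 := by exact_mod_cast a3
        have hy2' : (y.2 : ℚ) ≠ 0 := by exact_mod_cast b3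
        have := hxz.trans hy2.symm
        rwa [div_eq_div_iff hx2 hy2'] at this
      have e2 : x.1 * y.2 = y.1 * x.2 := by exact_mod_cast e1
      have d1 : x.1 ∣ y.1 := a1.dvd_of_dvd_mul_right (Dvd.intro _ e2)
      have d2 : y.1 ∣ x.1 := b1.dvd_of_dvd_mul_right (Dvd.intro _ e2.symm)
      rcases Int.associated_iff.1 (associated_of_dvd_dvd d1 d2) with h | h
      · have h2 : x.2 = y.2 := by
          rw [h] at e2
          exact (mul_left_cancel₀ b2 e2).symm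
        rw [Finset.mem_insert]
        left
        exact Prod.ext h.symm h2.symm
      · have h2 : y.2 = -x.2 := by
          rw [h] at e2
          have : y.1 * (-y.2) = y.1 * x.2 := by linarith
          have := mul_left_cancel₀ b2 this
          linarith
        rw [Finset.mem_insert, Finset.mem_singleton]
        right
        exact Prod.ext (by rw [h]; ring) h2
    exact (Finset.card_le_card hsub).trans Finset.card_le_two
  have hcard : (Ab ℚ P).card ≤ P.card := by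
    have := card_Ab (K := ℚ) P
    rwa [hfr, one_mul] at this
  have h2 : (s.card : ℝ) ≤ 2 * ((s.image fun x => (x.1 : ℚ) / x.2).card : ℝ) := by
    exact_mod_cast hfib
  calc (s.card : ℝ) ≤ _ := h2
    _ ≤ 2 * C ^ ((Ab ℚ P).card + 1) := by linarith
    _ ≤ 2 ^ (P.card + 1) * C ^ (P.card + 1) := by
        have e1 : (2 : ℝ) ≤ 2 ^ (P.card + 1) := le_self_pow₀ (by norm_num) (by omega)
        have e2 : C ^ ((Ab ℚ P).card + 1) ≤ C ^ (P.card + 1) :=
          pow_le_pow_right₀ hC1 (by omega)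
        gcongr
    _ = _ := by rw [mul_pow]

end Pool.Agent.X61.RT
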