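import Mathlib
import Pool.Agent.X61.RT.Light

/-!
Counting the integers with a relation of small height to another one, both with a small part outside
a finite set of primes.
-/

set_option autoImplicit false

namespace Pool.Agent.X61.RT

open Finset

lemma free_mul (P : Finset ℕ) {m n : ℕ} (hm : m ≠ 0) (hn : n ≠ 0) :
    free P (m * n) = free P m * free P n := by
  have key : ∀ (k : ℕ) (S : Finset ℕ), k.primeFactors \ P ⊆ S → (∀ p ∈ S, p ∉ P) →
      free P k = ∏ p ∈ S, p ^ k.factorization p := by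
    intro k S h1 h2
    unfold free
    refine Finset.prod_subset h1 ?_
    intro p hp hp2
    rw [Finset.mem_sdiff, not_and, not_not] at hp2
    have h3 : p ∉ k.primeFactors := fun h => h2 p hp (hp2 h)
    rw [← Nat.support_factorization, Finsupp.notMem_support_iff] at h3
    rw [h3, pow_zero]
  set S := (m * n).primeFactors \ P with hS
  have h1 : ∀ p ∈ S, p ∉ P := fun p hp => (Finset.mem_sdiff.1 hp).2
  rw [key (m * n) S subset_rfl h1, key m S _ h1, key n S _ h1, ← Finset.prod_mul_distrib]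
  · refine Finset.prod_congr rfl fun p _ => ?_
    rw [Nat.factorization_mul hm hn, Finsupp.add_apply, pow_add]
  · exact Finset.sdiff_subset_sdiff (Nat.primeFactors_mono (Dvd.intro_left _ rfl)
      (mul_ne_zero hm hn)) subset_rfl
  · exact Finset.sdiff_subset_sdiff (Nat.primeFactors_mono (Dvd.intro _ rfl)
      (mul_ne_zero hm hn)) subset_rfl

lemma free_le_of_dvd (P : Finset ℕ) {m n : ℕ} (hn : n ≠ 0) (h : m ∣ n) : free P m ≤ free P n := by
  obtain ⟨k, rfl⟩ := h
  rw [free_mul P (left_ne_zero_of_mul hn) (right_ne_zero_of_mul hn)]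
  exact Nat.le_mul_of_pos_right _ (free_pos P k)

lemma free_anti {P Q : Finset ℕ} (h : P ⊆ Q) (n : ℕ) : free Q n ≤ free P n := by
  unfold free
  refine Finset.prod_le_prod_of_subset_of_one_le' (Finset.sdiff_subset_sdiff subset_rfl h) ?_
  intro p hp _
  exact Nat.one_le_pow _ _ (Nat.prime_of_mem_primeFactors (Finset.mem_sdiff.1 hp).1).pos

lemma free_eq_one {P : Finset ℕ} {n : ℕ} (h : n.primeFactors ⊆ P) : free P n = 1 := by
  unfold free
  rw [Finset.sdiff_eq_empty_iff_subset.2 h, Finset.prod_empty]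

/-- **Light relations.** -/
lemma count_light (κ : ℝ) (hκ0 : 0 ≤ κ) (hκ : κ < 1 / 4) : ∃ (C : ℝ) (e : ℕ), 1 < C ∧
    ∀ (H : ℕ) (k : ℤ) (P : Finset ℕ), 1 ≤ H → k ≠ 0 →
    ∀ F : Finset ℤ, (∀ x ∈ F, ((H : ℝ) * |(k : ℝ)|) ^ e ≤ |(x : ℝ)| ∧
      Real.log (free P x.natAbs) ≤ κ * Real.log |(x : ℝ)| ∧
      ∃ A B E y : ℤ, A ≠ 0 ∧ B ≠ 0 ∧ E ≠ 0 ∧ |A| ≤ H ∧ |B| ≤ H ∧ |E| ≤ H ∧ y ≠ 0 ∧
        Real.log (free P y.natAbs) ≤ κ * Real.log |(y : ℝ)| ∧ A * x + B * k = E * y) →
    (F.card : ℝ) ≤ 27 * (H : ℝ) ^ 3 *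
      C ^ (P.card + k.natAbs.primeFactors.card + 3 * Nat.log 2 H + 1) := by
  classical
  obtain ⟨C, hC1, hC⟩ := light_int (κ + 1 / 4) (by linarith)
  obtain ⟨e, he⟩ := exists_nat_ge (1 + 2 * κ / (1 / 4 - κ))
  refine ⟨C + 1, e, by linarith, ?_⟩
  intro H k P hH hk F hF
  have hH1 : (1 : ℝ) ≤ H := by exact_mod_cast hH
  have hk1 : (1 : ℝ) ≤ |(k : ℝ)| := by
    have : (1 : ℤ) ≤ |k| := Int.one_le_abs hk
    exact_mod_cast this
  set Q : ℝ := (H : ℝ) * |(k : ℝ)| with hQ
  have hQ1 : 1 ≤ Q := one_le_mul_of_one_le_of_one_le hH1 hk1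
  have hQ0 : 0 < Q := by linarith
  have hlQ : 0 ≤ Real.log Q := Real.log_nonneg hQ1
  have he1 : (1 : ℝ) ≤ e := by
    refine le_trans ?_ he
    have : 0 ≤ 2 * κ / (1 / 4 - κ) := div_nonneg (by linarith) (by linarith)
    linarith
  have he2 : 2 * κ ≤ (1 / 4 - κ) * (e - 1) := by
    have h1 : 2 * κ / (1 / 4 - κ) ≤ e - 1 := by linarith
    rw [div_le_iff₀ (by linarith)] at h1
    linarith
  set I : Finset ℤ := Finset.Icc (-(H : ℤ)) H with hI
  set W : Finset (ℤ × ℤ × ℤ) := (I ×ˢ I ×ˢ I).filter fun s => s.1 ≠ 0 ∧ s.2.1 ≠ 0 ∧ s.2.2 ≠ 0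
    with hW
  set Fw : ℤ × ℤ × ℤ → Finset ℤ := fun w => F.filter fun x => ∃ y : ℤ, y ≠ 0 ∧
      Real.log (free P y.natAbs) ≤ κ * Real.log |(y : ℝ)| ∧ w.1 * x + w.2.1 * k = w.2.2 * y
    with hFw
  have hsub : F ⊆ W.biUnion Fw := by
    intro x hx
    obtain ⟨-, -, A, B, E, y, hA, hB, hE, hAH, hBH, hEH, hy, hyp, hrel⟩ := hF x hx
    rw [Finset.mem_biUnion]
    refine ⟨(A, B, E), ?_, Finset.mem_filter.2 ⟨hx, y, hy, hyp, hrel⟩⟩
    rw [hW, Finset.mem_filter]
    refine ⟨?_, hA, hB, hE⟩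
    simp only [Finset.mem_product, hI, Finset.mem_Icc]
    rw [abs_le] at hAH hBH hEH
    exact ⟨hAH, hBH, hEH⟩
  have hWcard : (W.card : ℝ) ≤ 27 * (H : ℝ) ^ 3 := by
    have h1 : W.card ≤ (I ×ˢ I ×ˢ I).card := Finset.card_filter_le _ _
    have h2 : I.card = 2 * H + 1 := by
      rw [hI, Int.card_Icc]; omega
    rw [Finset.card_product, Finset.card_product, h2] at h1
    have h3 : (W.card : ℝ) ≤ (2 * H + 1) * ((2 * H + 1) * (2 * H + 1)) := by exact_mod_cast h1
    have h4 : (2 * (H : ℝ) + 1) ≤ 3 * H := by linarith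
    have h5 : (2 * (H : ℝ) + 1) * ((2 * H + 1) * (2 * H + 1)) ≤ (3 * H) * ((3 * H) * (3 * H)) := by
      gcongr
    calc (W.card : ℝ) ≤ _ := h3
      _ ≤ _ := h5
      _ = _ := by ring
  set u : ℕ := P.card + k.natAbs.primeFactors.card + 3 * Nat.log 2 H + 1 with hu
  have hone : ∀ w ∈ W, ((Fw w).card : ℝ) ≤ (C + 1) ^ u := by
    intro w hw
    rw [hW, Finset.mem_filter] at hw
    simp only [Finset.mem_product, hI, Finset.mem_Icc] at hw
    obtain ⟨⟨g1, g2, g3⟩, g4, g5, g6⟩ := hw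
    set P' : Finset ℕ := P ∪ k.natAbs.primeFactors ∪ (w.1.natAbs.primeFactors ∪
      (w.2.1.natAbs.primeFactors ∪ w.2.2.natAbs.primeFactors)) with hP'
    have hPP : P ⊆ P' := Finset.subset_union_left.trans Finset.subset_union_left
    have hkP : k.natAbs.primeFactors ⊆ P' :=
      Finset.subset_union_right.trans Finset.subset_union_left
    have h1P : w.1.natAbs.primeFactors ⊆ P' :=
      Finset.subset_union_left.trans Finset.subset_union_right
    have h2P : w.2.1.natAbs.primeFactors ⊆ P' :=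
      Finset.subset_union_left.trans (Finset.subset_union_right.trans Finset.subset_union_right)
    have h3P : w.2.2.natAbs.primeFactors ⊆ P' :=
      Finset.subset_union_right.trans (Finset.subset_union_right.trans Finset.subset_union_right)
    have hcard : P'.card + 1 ≤ u := by
      have c1 := card_primes_le (H := H) (Int.natAbs_ne_zero.2 g4) (by omega)
      have c2 := card_primes_le (H := H) (Int.natAbs_ne_zero.2 g5) (by omega)
      have c3 := card_primes_le (H := H) (Int.natAbs_ne_zero.2 g6) (by omega)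
      have d1 := Finset.card_union_le (P ∪ k.natAbs.primeFactors) (w.1.natAbs.primeFactors ∪
        (w.2.1.natAbs.primeFactors ∪ w.2.2.natAbs.primeFactors))
      have d2 := Finset.card_union_le P k.natAbs.primeFactors
      have d3 := Finset.card_union_le w.1.natAbs.primeFactors
        (w.2.1.natAbs.primeFactors ∪ w.2.2.natAbs.primeFactors)
      have d4 := Finset.card_union_le w.2.1.natAbs.primeFactors w.2.2.natAbs.primeFactors
      rw [← hP'] at d1
      omega
    have hx0' : ∀ x ∈ F, x ≠ 0 := by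
      intro x hx h0
      obtain ⟨h1, -⟩ := hF x hx
      rw [h0, Int.cast_zero, abs_zero] at h1
      have : 0 < Q ^ e := by positivity
      linarith
    -- the coprime pair
    let φ : ℤ → ℤ × ℤ := fun x =>
      ((w.1 * x) / (Int.gcd (w.1 * x) (w.2.1 * k) : ℤ),
        (w.2.1 * k) / (Int.gcd (w.1 * x) (w.2.1 * k) : ℤ))
    have hφ : ∀ x ∈ Fw w, ∃ g : ℤ, 0 < g ∧ g ∣ w.2.1 * k ∧ w.1 * x = g * (φ x).1 ∧
        w.2.1 * k = g * (φ x).2 := by
      intro x hx
      have hx0 := hx0' x (Finset.mem_filter.1 hx).1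
      refine ⟨(Int.gcd (w.1 * x) (w.2.1 * k) : ℤ), ?_, Int.gcd_dvd_right .., ?_, ?_⟩
      · have h' : Int.gcd (w.1 * x) (w.2.1 * k) ≠ 0 := by
          intro h'
          rw [Int.gcd_eq_zero_iff] at h'
          exact (mul_ne_zero g4 hx0) h'.1
        exact_mod_cast Nat.pos_of_ne_zero h'
      · exact (Int.mul_ediv_cancel' (Int.gcd_dvd_left ..)).symm
      · exact (Int.mul_ediv_cancel' (Int.gcd_dvd_right ..)).symm
    have hinj : Set.InjOn φ (Fw w : Set ℤ) := by
      intro x hx y hy hxy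
      obtain ⟨g, hg0, -, hg1, hg2⟩ := hφ x hx
      obtain ⟨g', hg0', -, hg1', hg2'⟩ := hφ y hy
      rw [hxy] at hg1 hg2
      have hne : (φ y).2 ≠ 0 := by
        intro h
        rw [h, mul_zero] at hg2'
        exact (mul_ne_zero g5 hk) hg2'
      have e1 : g = g' := mul_right_cancel₀ hne (hg2.symm.trans hg2')
      rw [e1] at hg1
      exact mul_left_cancel₀ g4 (hg1.trans hg1'.symm)
    rw [← Finset.card_image_of_injOn hinj]
    have h1 := hC P' ((Fw w).image φ) (by
      intro s hs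
      obtain ⟨x, hx, rfl⟩ := Finset.mem_image.1 hs
      obtain ⟨g, hg0, hgd, hg1, hg2⟩ := hφ x hx
      obtain ⟨hxF, y, hy0, hyp, hrel⟩ := Finset.mem_filter.1 hx
      have hx0 := hx0' x hxF
      obtain ⟨hxl, hxp, -⟩ := hF x hxF
      have hcop : IsCoprime (φ x).1 (φ x).2 := by
        have hg' : Int.gcd (w.1 * x) (w.2.1 * k) ≠ 0 := by
          intro h'
          rw [Int.gcd_eq_zero_iff] at h'
          exact (mul_ne_zero g4 hx0) h'.1
        rw [Int.isCoprime_iff_gcd_eq_one]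
        exact Int.gcd_div_gcd_div_gcd (Nat.pos_of_ne_zero hg')
      set a := (φ x).1 with ha
      set b := (φ x).2 with hb
      have ha0 : a ≠ 0 := by
        intro h
        rw [h, mul_zero] at hg1
        exact (mul_ne_zero g4 hx0) hg1
      have hb0 : b ≠ 0 := by
        intro h
        rw [h, mul_zero] at hg2
        exact (mul_ne_zero g5 hk) hg2
      have hab : g * (a + b) = w.2.2 * y := by
        rw [mul_add, ← hg1, ← hg2, hrel]
      have hab0 : a + b ≠ 0 := by
        intro h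
        rw [h, mul_zero] at hab
        exact (mul_ne_zero g6 hy0) hab.symm
      refine ⟨hcop, ha0, hb0, hab0, ?_⟩
      -- free parts
      have f1 : free P' a.natAbs ≤ free P x.natAbs := by
        refine (free_le_of_dvd P' (n := (w.1 * x).natAbs)
          (Int.natAbs_ne_zero.2 (mul_ne_zero g4 hx0)) (Int.natAbs_dvd_natAbs.2
            (Dvd.intro_left _ hg1.symm))).trans ?_
        rw [Int.natAbs_mul, free_mul P' (Int.natAbs_ne_zero.2 g4) (Int.natAbs_ne_zero.2 hx0),
          free_eq_one h1P, one_mul]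
        exact free_anti hPP _
      have f2 : free P' b.natAbs = 1 := by
        have h3 := free_le_of_dvd P' (n := (w.2.1 * k).natAbs)
          (Int.natAbs_ne_zero.2 (mul_ne_zero g5 hk)) (m := b.natAbs) (Int.natAbs_dvd_natAbs.2
            (Dvd.intro_left _ hg2.symm))
        rw [Int.natAbs_mul, free_mul P' (Int.natAbs_ne_zero.2 g5) (Int.natAbs_ne_zero.2 hk),
          free_eq_one h2P, free_eq_one hkP] at h3
        have h4 := free_pos P' b.natAbs
        omega
      have f3 : free P' (a + b).natAbs ≤ free P y.natAbs := by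
        refine (free_le_of_dvd P' (n := (w.2.2 * y).natAbs)
          (Int.natAbs_ne_zero.2 (mul_ne_zero g6 hy0)) (Int.natAbs_dvd_natAbs.2
            (Dvd.intro_left _ hab))).trans ?_
        rw [Int.natAbs_mul, free_mul P' (Int.natAbs_ne_zero.2 g6) (Int.natAbs_ne_zero.2 hy0),
          free_eq_one h3P, one_mul]
        exact free_anti hPP _
      have l1 : Real.log (free P' a.natAbs) ≤ Real.log (free P x.natAbs) :=
        Real.log_le_log (by exact_mod_cast free_pos P' _) (by exact_mod_cast f1)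
      have l2 : Real.log (free P' b.natAbs) = 0 := by rw [f2]; simp
      have l3 : Real.log (free P' (a + b).natAbs) ≤ Real.log (free P y.natAbs) :=
        Real.log_le_log (by exact_mod_cast free_pos P' _) (by exact_mod_cast f3)
      -- sizes
      have hgQ : (g : ℝ) ≤ Q := by
        have h3 : g ≤ |w.2.1 * k| := Int.le_of_dvd (abs_pos.2 (mul_ne_zero g5 hk))
          ((dvd_abs _ _).2 hgd)
        have h4 : (g : ℝ) ≤ |(w.2.1 : ℝ)| * |(k : ℝ)| := by
          rw [← abs_mul]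
          exact_mod_cast h3
        have h5 : |(w.2.1 : ℝ)| ≤ H := by
          have : |w.2.1| ≤ (H : ℤ) := abs_le.2 g2
          exact_mod_cast this
        exact h4.trans (mul_le_mul_of_nonneg_right h5 (abs_nonneg _))
      have hg0r : (0 : ℝ) < g := by exact_mod_cast hg0
      have hlg : Real.log g ≤ Real.log Q := Real.log_le_log hg0r hgQ
      set M : ℝ := max |(a : ℝ)| (max |(b : ℝ)| |((a + b : ℤ) : ℝ)|) with hM
      have hxr : 0 < |(x : ℝ)| := abs_pos.2 (by exact_mod_cast hx0)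
      have hyr : 0 < |(y : ℝ)| := abs_pos.2 (by exact_mod_cast hy0)
      have har : 0 < |(a : ℝ)| := abs_pos.2 (by exact_mod_cast ha0)
      have habr : 0 < |((a + b : ℤ) : ℝ)| := abs_pos.2 (by exact_mod_cast hab0)
      have big : ∀ z t s : ℤ, t ≠ 0 → t * z = g * s → z ≠ 0 → |(s : ℝ)| ≤ M →
          Real.log |(z : ℝ)| ≤ Real.log Q + Real.log M := by
        intro z t s ht h1 hz hs
        have hs0 : s ≠ 0 := by
          intro h
          rw [h, mul_zero] at h1
          exact (mul_ne_zero ht hz) h1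
        have h3 : |(z : ℝ)| ≤ g * |(s : ℝ)| := by
          have h4 : |(t : ℝ)| * |(z : ℝ)| = g * |(s : ℝ)| := by
            have h5 : ((t * z : ℤ) : ℝ) = ((g * s : ℤ) : ℝ) := by rw [h1]
            have h6 := congrArg abs h5
            rw [Int.cast_mul, Int.cast_mul, abs_mul, abs_mul, abs_of_pos hg0r] at h6
            exact h6
          have h5 : (1 : ℝ) ≤ |(t : ℝ)| := by
            have : (1 : ℤ) ≤ |t| := Int.one_le_abs ht
            exact_mod_cast this
          rw [← h4]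
          exact le_mul_of_one_le_left (abs_nonneg _) h5
        have hs0r : 0 < |(s : ℝ)| := abs_pos.2 (by exact_mod_cast hs0)
        have hz0r : 0 < |(z : ℝ)| := abs_pos.2 (by exact_mod_cast hz)
        have h6 := Real.log_le_log hz0r h3
        rw [Real.log_mul hg0r.ne' hs0r.ne'] at h6
        have h7 := Real.log_le_log hs0r hs
        linarith
      have b1 := big x w.1 a g4 hg1 hx0 (le_max_left _ _)
      have b2 := big y w.2.2 (a + b) g6 hab.symm hy0 ((le_max_right _ _).trans (le_max_right _ _))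
      have hxe : (e : ℝ) * Real.log Q ≤ Real.log |(x : ℝ)| := by
        rw [← Real.log_pow]
        exact Real.log_le_log (by positivity) hxl
      have hMe : (e - 1 : ℝ) * Real.log Q ≤ Real.log M := by linarith
      have h8 : 2 * κ * Real.log Q ≤ (1 / 4 - κ) * Real.log M := by
        calc 2 * κ * Real.log Q ≤ (1 / 4 - κ) * (e - 1) * Real.log Q :=
              mul_le_mul_of_nonneg_right he2 hlQ
          _ = (1 / 4 - κ) * ((e - 1) * Real.log Q) := by ring
          _ ≤ _ := mul_le_mul_of_nonneg_left hMe (by linarith)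
      have h9 : κ * Real.log |(x : ℝ)| ≤ κ * (Real.log Q + Real.log M) :=
        mul_le_mul_of_nonneg_left b1 hκ0
      have h10 : κ * Real.log |(y : ℝ)| ≤ κ * (Real.log Q + Real.log M) :=
        mul_le_mul_of_nonneg_left b2 hκ0
      rw [l2, add_zero]
      have h11 : κ * Real.log |(x : ℝ)| + κ * Real.log |(y : ℝ)| ≤ (κ + 1 / 4) * Real.log M := by
        nlinarith
      exact (add_le_add (l1.trans hxp) (l3.trans hyp)).trans h11)
    calc (((Fw w).image φ).card : ℝ) ≤ C ^ (P'.card + 1) := h1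
      _ ≤ (C + 1) ^ (P'.card + 1) := pow_le_pow_left₀ (by linarith) (by linarith) _
      _ ≤ (C + 1) ^ u := pow_le_pow_right₀ (by linarith) hcard
  have h1 : (F.card : ℝ) ≤ W.card * (C + 1) ^ u := by
    have h2 := (Finset.card_le_card hsub).trans Finset.card_biUnion_le
    have h3 : (F.card : ℝ) ≤ ∑ s ∈ W, ((Fw s).card : ℝ) := by exact_mod_cast h2
    refine h3.trans ?_
    rw [← nsmul_eq_mul]
    exact Finset.sum_le_card_nsmul _ _ _ fun w hw => hone w hw
  refine h1.trans ?_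
  gcongr

/-- **Few light terms.** -/
theorem light_rare (κ : ℝ) (hκ0 : 0 ≤ κ) (hκ : κ < 1 / 4) (L : ℕ) (hL : 2 ≤ L) :
    ∃ c C : ℝ, 0 < c ∧ 0 < C ∧
    ∀ {α : Type} [DecidableEq α] (f : α → α) (v : α → ℤ) (G : Set α) (k : ℤ) (N : ℕ)
      (Bad : Finset α) (P : Finset ℕ), Set.MapsTo f G G → Set.InjOn f G → k ≠ 0 → 2 ≤ N →
      (∀ b ∈ Bad, b ∈ G) →
      (∀ b ∈ Bad, v b ≠ 0 ∧ Real.log (free P (v b).natAbs) ≤ κ * Real.log |(v b : ℝ)|) →
      (∀ b ∈ Bad, ∀ c ∈ Bad, v b = v c → b = c) →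
      (∀ b ∈ Bad, ∀ j, 1 ≤ j → f^[j] b ∈ Bad → ∃ A B E : ℤ, A ≠ 0 ∧ B ≠ 0 ∧ E ≠ 0 ∧
        |A| ≤ (L : ℤ) ^ j ∧ |B| ≤ (L : ℤ) ^ j ∧ |E| ≤ (L : ℤ) ^ j ∧
        A * v b + B * k = E * v (f^[j] b)) →
      (∀ J : ℕ, ∃ F : Finset α, F.card ≤ N + J ∧ ∀ b ∈ Bad, ∀ j ≤ J, f^[j] b ∈ F) →
      (P.card : ℝ) + (k.natAbs.primeFactors.card : ℝ) ≤ c * Real.log N →
      |(k : ℝ)| ≤ (N : ℝ) ^ c →
      (Bad.card : ℝ) ≤ C * (N / Real.log N) := by
  classical
  obtain ⟨C, e, hC1, hcount⟩ := count_light κ hκ0 hκ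
  set β : ℝ := Real.log C with hβ
  have hβ0 : 0 < β := Real.log_pos hC1
  have hL1 : (1 : ℝ) < L := by exact_mod_cast (by omega : 1 < L)
  set lam : ℝ := Real.log L with hlam
  have hlam0 : 0 < lam := Real.log_pos hL1
  set l : ℕ := Nat.log 2 L + 1 with hl
  set D : ℝ := e * (lam + 1) + 3 * lam + β * (1 + 3 * l) + 1 with hD
  have hD1 : 1 ≤ D := by
    rw [hD]
    have : 0 ≤ e * (lam + 1) + 3 * lam + β * (1 + 3 * l) := by positivity
    linarith
  set c : ℝ := 1 / (2 * D) with hc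
  have hc0 : 0 < c := by positivity
  have hc1 : c ≤ 1 := by
    rw [hc, div_le_one (by positivity)]
    linarith
  have hcD : c * D = 1 / 2 := by
    rw [hc]
    field_simp
  refine ⟨c, (3 + 27 * C) * 2 + 2 / c, hc0, by positivity, ?_⟩
  intro α _ f v G k N Bad P hGG hinj hk hN hBG hBad hv hrel hFin hP hkN
  have hN1 : (1 : ℝ) < N := by exact_mod_cast (by omega : 1 < N)
  have hN0 : (0 : ℝ) < N := by linarith
  have hlogN : 0 < Real.log N := Real.log_pos hN1
  set J : ℕ := ⌊c * Real.log N⌋₊ with hJ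
  have hJ1 : (J : ℝ) ≤ c * Real.log N := Nat.floor_le (by positivity)
  set H : ℕ := L ^ J with hH
  have hH1 : 1 ≤ H := Nat.one_le_pow _ _ (by omega)
  have hHN : (H : ℝ) ≤ (N : ℝ) ^ (c * lam) := by
    rw [hH]
    push_cast
    rw [← Real.exp_log (by positivity : (0 : ℝ) < (L : ℝ) ^ J), Real.log_pow,
      Real.rpow_def_of_pos hN0]
    refine Real.exp_le_exp.2 ?_
    calc (J : ℝ) * Real.log L ≤ c * Real.log N * lam :=
          mul_le_mul_of_nonneg_right hJ1 hlam0.le
      _ = _ := by ring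
  set B1 : Finset α := Bad.filter fun b => ∃ j, 1 ≤ j ∧ j ≤ J ∧ f^[j] b ∈ Bad with hB1
  set Q : ℕ := H * k.natAbs with hQ
  have hQ1 : 1 ≤ Q := Nat.one_le_iff_ne_zero.2 (mul_ne_zero (by omega) (Int.natAbs_ne_zero.2 hk))
  have hQr : (Q : ℝ) = (H : ℝ) * |(k : ℝ)| := by
    rw [hQ]
    push_cast
    rw [Nat.cast_natAbs, Int.cast_abs]
  set B2 : Finset α := B1.filter fun b => |(v b : ℝ)| < (Q : ℝ) ^ e with hB2
  set B3 : Finset α := B1.filter fun b => (Q : ℝ) ^ e ≤ |(v b : ℝ)| with hB3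
  have hB1m : ∀ b ∈ B1, b ∈ Bad := fun b hb => (Finset.mem_filter.1 hb).1
  have hvinj : ∀ S : Finset α, S ⊆ B1 → (S.image v).card = S.card := by
    intro S hS
    refine Finset.card_image_of_injOn ?_
    intro a ha b hb h
    exact hv a (hB1m a (hS ha)) b (hB1m b (hS hb)) h
  have hB12 : (B1.card : ℝ) ≤ B2.card + B3.card := by
    have h1 : B1 ⊆ B2 ∪ B3 := by
      intro b hb
      rcases lt_or_ge |(v b : ℝ)| ((Q : ℝ) ^ e) with h | h
      · exact Finset.mem_union_left _ (Finset.mem_filter.2 ⟨hb, h⟩)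
      · exact Finset.mem_union_right _ (Finset.mem_filter.2 ⟨hb, h⟩)
    exact_mod_cast (Finset.card_le_card h1).trans (Finset.card_union_le _ _)
  have hbound2 : (B2.card : ℝ) ≤ 3 * (N : ℝ) ^ (1 / 2 : ℝ) := by
    have h1 : B2.image v ⊆ Finset.Icc (-((Q ^ e : ℕ) : ℤ)) ((Q ^ e : ℕ) : ℤ) := by
      intro z hz
      obtain ⟨b, hb, rfl⟩ := Finset.mem_image.1 hz
      have h2 := (Finset.mem_filter.1 hb).2
      have h3 : |v b| < ((Q ^ e : ℕ) : ℤ) := by
        have h4 : ((|v b| : ℤ) : ℝ) < (((Q ^ e : ℕ) : ℤ) : ℝ) := by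
          rw [Int.cast_abs]
          push_cast
          exact h2
        exact_mod_cast h4
      rw [Finset.mem_Icc]
      exact abs_le.1 h3.le
    have h2 := Finset.card_le_card h1
    rw [hvinj B2 (Finset.filter_subset _ _), Int.card_Icc] at h2
    have h3 : B2.card ≤ 3 * Q ^ e := by
      have h4 : 1 ≤ Q ^ e := Nat.one_le_pow _ _ hQ1
      omega
    have h4 : (Q : ℝ) ^ e ≤ (N : ℝ) ^ (1 / 2 : ℝ) := by
      have h5 : (Q : ℝ) ≤ (N : ℝ) ^ (c * (lam + 1)) := by
        rw [hQr, mul_add, mul_one, Real.rpow_add hN0]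
        exact mul_le_mul hHN hkN (abs_nonneg _) (by positivity)
      calc (Q : ℝ) ^ e ≤ ((N : ℝ) ^ (c * (lam + 1))) ^ e :=
            pow_le_pow_left₀ (Nat.cast_nonneg _) h5 e
        _ = (N : ℝ) ^ (c * (lam + 1) * e) := by rw [← Real.rpow_natCast, ← Real.rpow_mul hN0.le]
        _ ≤ _ := by
          refine Real.rpow_le_rpow_of_exponent_le hN1.le ?_
          rw [← hcD]
          have h6 : (lam + 1) * e ≤ D := by
            rw [hD]
            have : 0 ≤ 3 * lam + β * (1 + 3 * l) := by positivity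
            linarith
          calc c * (lam + 1) * e = c * ((lam + 1) * e) := by ring
            _ ≤ c * D := mul_le_mul_of_nonneg_left h6 hc0.le
    calc (B2.card : ℝ) ≤ 3 * (Q : ℝ) ^ e := by exact_mod_cast h3
      _ ≤ _ := by linarith
  have hbound3 : (B3.card : ℝ) ≤ 27 * C * (N : ℝ) ^ (1 / 2 : ℝ) := by
    have h1 := hcount H k P hH1 hk (B3.image v) (by
      intro z hz
      obtain ⟨b, hb, rfl⟩ := Finset.mem_image.1 hz
      obtain ⟨hb1, hb2⟩ := Finset.mem_filter.1 hb
      obtain ⟨hb3, j, hj1, hj2, hj3⟩ := Finset.mem_filter.1 hb1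
      refine ⟨by rw [← hQr]; exact hb2, (hBad b hb3).2, ?_⟩
      obtain ⟨A, B, E, g1, g2, g3, g4, g5, g6, g7⟩ := hrel b hb3 j hj1 hj3
      have hpow : (L : ℤ) ^ j ≤ (H : ℤ) := by
        rw [hH]
        push_cast
        exact pow_le_pow_right₀ (by exact_mod_cast (by omega : 1 ≤ L)) hj2
      exact ⟨A, B, E, v (f^[j] b), g1, g2, g3, g4.trans hpow, g5.trans hpow, g6.trans hpow,
        (hBad _ hj3).1, (hBad _ hj3).2, g7⟩)
    rw [hvinj B3 (Finset.filter_subset _ _)] at h1
    refine h1.trans ?_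
    have h3 : Nat.log 2 H ≤ l * J := by
      have h4 : H ≤ 2 ^ (l * J) := by
        rw [hH, pow_mul]
        exact Nat.pow_le_pow_left (Nat.lt_pow_succ_log_self (by norm_num) L).le J
      calc Nat.log 2 H ≤ Nat.log 2 (2 ^ (l * J)) := Nat.log_mono_right h4
        _ = l * J := Nat.log_pow (by norm_num) _
    have h4 : C ^ (P.card + k.natAbs.primeFactors.card + 3 * Nat.log 2 H + 1) ≤
        C * (N : ℝ) ^ (c * (β * (1 + 3 * l))) := by
      rw [pow_succ, mul_comm]
      refine mul_le_mul_of_nonneg_left ?_ (by linarith)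
      rw [← Real.exp_log (by positivity : (0 : ℝ) <
        C ^ (P.card + k.natAbs.primeFactors.card + 3 * Nat.log 2 H)), Real.log_pow,
        Real.rpow_def_of_pos hN0]
      refine Real.exp_le_exp.2 ?_
      rw [← hβ]
      push_cast
      have h5 : ((Nat.log 2 H : ℕ) : ℝ) ≤ l * (c * Real.log N) := by
        have h6 : ((Nat.log 2 H : ℕ) : ℝ) ≤ l * J := by exact_mod_cast h3
        exact h6.trans (mul_le_mul_of_nonneg_left hJ1 (Nat.cast_nonneg _))
      calc ((P.card : ℝ) + (k.natAbs.primeFactors.card : ℝ) + 3 * (Nat.log 2 H : ℕ)) * β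
          ≤ (c * Real.log N + 3 * (l * (c * Real.log N))) * β := by
            refine mul_le_mul_of_nonneg_right ?_ hβ0.le
            linarith
        _ = _ := by ring
    have h5 : (H : ℝ) ^ 3 ≤ (N : ℝ) ^ (c * (3 * lam)) := by
      calc (H : ℝ) ^ 3 ≤ ((N : ℝ) ^ (c * lam)) ^ 3 := pow_le_pow_left₀ (Nat.cast_nonneg _) hHN 3
        _ = _ := by
          rw [← Real.rpow_natCast, ← Real.rpow_mul hN0.le]
          congr 1
          push_cast
          ring
    calc 27 * (H : ℝ) ^ 3 * C ^ (P.card + k.natAbs.primeFactors.card + 3 * Nat.log 2 H + 1)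
        ≤ 27 * (N : ℝ) ^ (c * (3 * lam)) * (C * (N : ℝ) ^ (c * (β * (1 + 3 * l)))) := by gcongr
      _ = 27 * C * (N : ℝ) ^ (c * (3 * lam) + c * (β * (1 + 3 * l))) := by
          rw [Real.rpow_add hN0]
          ring
      _ ≤ _ := by
          refine mul_le_mul_of_nonneg_left ?_ (by positivity)
          refine Real.rpow_le_rpow_of_exponent_le hN1.le ?_
          rw [← hcD, ← mul_add]
          refine mul_le_mul_of_nonneg_left ?_ hc0.le
          rw [hD]
          have : 0 ≤ (e : ℝ) * (lam + 1) := by positivity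
          linarith
  have h1 := rare_of f G N Bad hGG hinj hN hBG hFin c hc0 hc1 ((3 + 27 * C) * 2 * (N / Real.log N))
    (by
      have h7 := pow_le_div (1 / 2) (by norm_num) hN1
      have h8 : (N : ℝ) ^ (1 - 1 / 2 : ℝ) = (N : ℝ) ^ (1 / 2 : ℝ) := by norm_num
      rw [h8] at h7
      calc (B1.card : ℝ) ≤ B2.card + B3.card := hB12
        _ ≤ (3 + 27 * C) * (N : ℝ) ^ (1 / 2 : ℝ) := by linarith
        _ ≤ (3 + 27 * C) * (1 / (1 / 2) * (N / Real.log N)) :=
          mul_le_mul_of_nonneg_left h7 (by positivity)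
        _ = _ := by ring)
  calc (Bad.card : ℝ) ≤ _ := h1
    _ = _ := by ring

end Pool.Agent.X61.RT
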